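import Pool.Agent.URW.B.Lift

/-!
# URW B/Ang: angles along chains

`ang g w = th (g⁻¹ * w)`, `sm` is the distance to `0` in `ZMod (2 (8 m + 1))`.
PROOFS.
* `sm_neg`, `sm_add_le`, `sm_sub_comm`, `sm_triangle`: like for `cd` (`ZMod.valMinAbs` of a sum is
  congruent to the sum of the `valMinAbs`; `ZMod.natAbs_valMinAbs_add_le`).
* `ang_mul`: `(x g)⁻¹ (x w) = g⁻¹ w`.
* `ang_run`: a segment from `a` avoiding `g` is a nice word; `th_nice` for the walk from `g⁻¹ a`.
* `ang_chn`, `ang_con`: induction on the number of segments and `sm_triangle`.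
* `ang_sq`: `th_square` (the translate of a square is a square).
* `ang_inj`-type facts are not needed.
* `lift_small`: if `sm a ≤ 2 * m`, `sm b ≤ 2 * m` then `(a + b).valMinAbs = a.valMinAbs +
  b.valMinAbs` (both sides are congruent and of absolute value `< 8 m + 1`:
  `ZMod.valMinAbs_spec`/`ZMod.valMinAbs_add_of_two_lt_valMinAbs_add`, or: an integer `z` with
  `2 |z| < N` is the `valMinAbs` of its class).
-/

set_option autoImplicit false

namespace URW

variable {m : ℕ}

theorem sm_sub_comm (a b : Ang m) : sm (a - b) = sm (b - a) := by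
  rw [← neg_sub b a, sm_neg]

theorem sm_triangle (a b c : Ang m) : sm (a - c) ≤ sm (a - b) + sm (b - c) := by
  have h : a - c = (a - b) + (b - c) := by ring
  rw [h]
  exact sm_add_le _ _

theorem lift_neg (a : Ang m) (ha : sm a ≤ 2 * m) : (-a).valMinAbs = -a.valMinAbs := by
  have h1 : a.valMinAbs.natAbs ≤ 2 * m := ha
  rw [ZMod.valMinAbs_spec]
  refine ⟨?_, ?_, ?_⟩
  · rw [Int.cast_neg, ZMod.coe_valMinAbs]
  · push_cast
    omega
  · push_cast
    omega

theorem lift_add (a b : Ang m) (ha : sm a ≤ 2 * m) (hb : sm b ≤ 2 * m) :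
    (a + b).valMinAbs = a.valMinAbs + b.valMinAbs := by
  have h1 : a.valMinAbs.natAbs ≤ 2 * m := ha
  have h2 : b.valMinAbs.natAbs ≤ 2 * m := hb
  rw [ZMod.valMinAbs_spec]
  refine ⟨?_, ?_, ?_⟩
  · rw [Int.cast_add, ZMod.coe_valMinAbs, ZMod.coe_valMinAbs]
  · push_cast
    omega
  · push_cast
    omega

theorem ang_mul (x g w : Wm m) : ang (x * g) (x * w) = ang g w := by
  unfold ang
  rw [mul_inv_rev, mul_assoc, inv_mul_cancel_left]

private theorem ang_walk (g a : Wm m) (l : List (Lab m)) :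
    ang g (walk nW a l) = th (walk nW (g⁻¹ * a) l) := by
  unfold ang
  rw [walk_nW, walk_nW, mul_assoc]

private theorem ang_run (hm : 100 ≤ m) {g a : Wm m} {l : List (Lab m)} (hl : NiceW l)
    (h : ∀ p, p <+: l → walk nW a p ≠ g) {p : List (Lab m)} (hp : p <+: l) :
    sm (ang g (walk nW a p) - ang g a) ≤ 1 := by
  have e : ang g a = th (walk nW (g⁻¹ * a) []) := rfl
  rw [ang_walk, e]
  refine th_nice hm hl (fun q hq hc => h q hq ?_) p [] hp List.nil_prefix
  rw [walk_nW] at hc ⊢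
  rw [mul_assoc, inv_mul_eq_one] at hc
  exact hc.symm

theorem ang_chn (hm : 100 ≤ m) {c : Wm m → Rot m} {g a : Wm m} {ds : List (List (Lab m))}
    (h : Chn nW c a ds) (h' : ∀ p, p <+: ds.flatten → walk nW a p ≠ g) :
    ∀ p, p <+: ds.flatten → sm (ang g (walk nW a p) - ang g a) ≤ ds.length := by
  induction ds generalizing a with
  | nil =>
    intro p hp
    rw [List.flatten_nil, List.prefix_nil] at hp
    rw [hp, walk_nil, sub_self, sm_zero]
    exact Nat.zero_le _
  | cons d ds ih =>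
    obtain ⟨h1, h2⟩ := h
    rw [List.flatten_cons] at h' ⊢
    have hd : ∀ p, p <+: d → walk nW a p ≠ g := fun p hp =>
      h' p (hp.trans (List.prefix_append _ _))
    have hn := seg_nice (by omega) h1
    have hrest := ih h2 fun p hp => by
      rw [← walk_append]
      exact h' _ ((List.prefix_append_right_inj d).2 hp)
    intro p hp
    rw [List.length_cons]
    obtain ⟨t, ht⟩ := hp
    rcases List.append_eq_append_iff.1 ht with ⟨u, hu, -⟩ | ⟨u, hu, hu'⟩
    · have := ang_run hm hn hd ⟨u, hu.symm⟩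
      omega
    · rw [hu, walk_append]
      have k1 := hrest u ⟨t, hu'.symm⟩
      have k2 := ang_run hm hn hd (List.prefix_refl d)
      have k3 := sm_triangle (ang g (walk nW (walk nW a d) u)) (ang g (walk nW a d)) (ang g a)
      omega

theorem ang_con (hm : 100 ≤ m) {c : Wm m → Rot m} {A : Set (Wm m)} {g a b : Wm m} (hg : g ∈ A)
    {j : ℕ} (h : Con nW c A j a b) : sm (ang g b - ang g a) ≤ j := by
  obtain ⟨ds, h1, h2, h3, h4⟩ := h
  have h5 := ang_chn hm h2 (fun p hp hc => h4 p hp (by rw [hc]; exact hg)) _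
    (List.prefix_refl _)
  rw [h3] at h5
  exact h5.trans h1

theorem ang_sq (hm : 100 ≤ m) {g w x y : Wm m} {i : Lab m} (hx : x ∈ sqv nW w i)
    (hy : y ∈ sqv nW w i) (hx1 : x ≠ g) (hy1 : y ≠ g) : sm (ang g x - ang g y) ≤ 2 := by
  have mem : ∀ z : Wm m, z ∈ sqv nW w i → g⁻¹ * z ∈ sqv nW (g⁻¹ * w) i := by
    intro z hz
    rw [← sq_trans]
    exact ⟨z, hz, rfl⟩
  have ne : ∀ z : Wm m, z ≠ g → g⁻¹ * z ≠ 1 := by
    intro z hz hc
    rw [inv_mul_eq_one] at hc
    exact hz hc.symm
  exact th_square hm (mem x hx) (mem y hy) (ne x hx1) (ne y hy1)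

theorem ang_edge (hm : 100 ≤ m) {g w : Wm m} {j : Lab m} (h : w ≠ g) (h' : w * sg j ≠ g) :
    sm (ang g (w * sg j) - ang g w) ≤ 1 := by
  have ne : ∀ z : Wm m, z ≠ g → g⁻¹ * z ≠ 1 := by
    intro z hz hc
    rw [inv_mul_eq_one] at hc
    exact hz hc.symm
  have k := ne _ h'
  unfold ang
  rw [← mul_assoc] at k ⊢
  exact th_edge hm (ne _ h) k

end URW
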