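import Pool.Agent.URW.B.Crd

/-!
# URW B/Blocks: faces, edges of the block complex and chains

PROOFS.
* `sqv_rho`: `sqv (nbG ρ) (ρ w) i = ρ '' sqv nW w i` (`ρ (nW w i) = nbG ρ (ρ w) i`).
* `face_near`: `p`, `q` adjacent with no holes near. `near_cases`. First case: `inr s` is in the
  carrier of `p` (or of `q`), `s = sqv nW w i`, `near p = s` (`near_inr`), so `s` has no holes and its
  image is a block (`sqv_rho`) containing the images of `near p ∪ near q`. Second case: the
  carriers are in `{inl w, inl (w s_i)}`, so `near p ∪ near q ⊆ {w, w s_i}`; if both `w` and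
  `w s_i` are in `near p ∪ near q`, both are not holes and the run `runv (w, i) 1` is a block; if
  only one of them, say `x`, is near, then the run `runv (ρ x, 0) 0 = {ρ x}` is a block. The
  finset in question is any finset whose elements are in the image.
* `con_block`: two vertices of a block without holes: for a run `con_run` (one segment); for a
  square `sqv (nbG ρ) v i` with `v = ρ w` (`ρ` is surjective) the two vertices are images of
  corners `x, y` of `sqv nW w i`; `sq_path` gives a word `l`, `|l| ≤ 2`, whose prefixes stay in the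
  square; its letters are the segments (`seg_single`), its projection avoids `H`.
* `con_edge2`: unfold `UWT.Edge` and the faces of `blk`.
* `con_near`: induction on `n` (`UWT.Near K n` is `URW.Rn K n`) and `con_trans`, `con_mono`.
-/

set_option autoImplicit false

namespace URW

variable {m : ℕ} {V : Type} [Group V] (ρ : Wm m →* V) (c : V → Rot m) (H : Finset V)

theorem sqv_rho (w : Wm m) (i : Lab m) : sqv (nbG ρ) (ρ w) i = ρ '' sqv nW w i := by
  have h : ∀ (x : Wm m) (j : Lab m), nbG ρ (ρ x) j = ρ (nW x j) := fun x j =>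
    (map_mul ρ x (sg j)).symm
  unfold sqv
  rw [Set.image_insert_eq, Set.image_insert_eq, Set.image_insert_eq, Set.image_singleton, h w i,
    h w (i + 1), h (nW w i) (i + 1)]

/-- Elements of a square without holes. -/
private theorem face_sq {N : Set (Wm m)} {w : Wm m} {i : Lab m}
    (hH : ∀ x ∈ sqv nW w i, ρ x ∉ H) (hN : N ⊆ sqv nW w i)
    (s : Finset {v : V // v ∉ (H : Set V)}) (hs : s.Nonempty)
    (hs' : ∀ x ∈ s, x ∈ img ρ H N) : s ∈ (blk (nbG ρ) c (H : Set V)).faces := by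
  refine ⟨hs, sqv (nbG ρ) (ρ w) i, ⟨?_, Or.inl ⟨_, _, rfl⟩⟩, fun x hx => ?_⟩
  · intro x hx
    rw [sqv_rho] at hx
    obtain ⟨y, hy, rfl⟩ := hx
    exact hH y hy
  · obtain ⟨y, hy, he⟩ := hs' x hx
    rw [sqv_rho]
    exact ⟨y, hN hy, he⟩

/-- Elements of an edge. -/
private theorem face_ed {N : Set (Wm m)} {w : Wm m} {i : Lab m} (hH : ∀ x ∈ N, ρ x ∉ H)
    (hN : N ⊆ {w, w * sg i}) (s : Finset {v : V // v ∉ (H : Set V)}) (hs : s.Nonempty)
    (hs' : ∀ x ∈ s, x ∈ img ρ H N) : s ∈ (blk (nbG ρ) c (H : Set V)).faces := by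
  obtain ⟨x0, hx0⟩ := hs
  obtain ⟨v0, hv0, he0⟩ := hs' x0 hx0
  by_cases hall : ∀ v ∈ N, v = v0
  · refine ⟨⟨x0, hx0⟩, runv (nbG ρ) c (ρ v0, 0) 0, ⟨?_, Or.inr ⟨_, _, rfl⟩⟩, fun x hx => ?_⟩
    · rintro x ⟨j, hj, rfl⟩
      obtain rfl := Nat.le_zero.1 hj
      exact hH v0 hv0
    · obtain ⟨y, hy, he⟩ := hs' x hx
      rw [hall y hy] at he
      exact ⟨0, le_rfl, he.symm⟩
  · push Not at hall
    obtain ⟨v1, hv1, hne⟩ := hall
    have h2 : w ∈ N ∧ w * sg i ∈ N := by
      rcases hN hv0 with h3 | h3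
      · rcases hN hv1 with h4 | h4
        · exact absurd (h4.trans h3.symm) hne
        · exact ⟨h3 ▸ hv0, (show v1 = w * sg i from h4) ▸ hv1⟩
      · rcases hN hv1 with h4 | h4
        · exact ⟨h4 ▸ hv1, (show v0 = w * sg i from h3) ▸ hv0⟩
        · exact absurd ((show v1 = w * sg i from h4).trans
            (show v0 = w * sg i from h3).symm) hne
    have e1 : ((nxt (nbG ρ) c)^[1] (ρ w, i)).1 = ρ (w * sg i) := (map_mul ρ w (sg i)).symm
    refine ⟨⟨x0, hx0⟩, runv (nbG ρ) c (ρ w, i) 1, ⟨?_, Or.inr ⟨_, _, rfl⟩⟩, fun x hx => ?_⟩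
    · rintro x ⟨j, hj, rfl⟩
      rcases Nat.le_one_iff_eq_zero_or_eq_one.1 hj with rfl | rfl
      · exact hH w h2.1
      · rw [e1]
        exact hH _ h2.2
    · obtain ⟨y, hy, he⟩ := hs' x hx
      rcases hN hy with h3 | h3
      · refine ⟨0, Nat.zero_le _, ?_⟩
        rw [← he, h3]
        rfl
      · refine ⟨1, le_rfl, ?_⟩
        rw [e1, ← he, show y = w * sg i from h3]

private theorem near_ed {k : ℕ} {p : (Fine m k).V} {w : Wm m} {i : Lab m}
    (h : (plane m).car k p ⊆ {Sum.inl w, Sum.inl (w * sg i)}) : near p ⊆ {w, w * sg i} := by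
  rintro v ⟨a, ha, hv⟩
  rcases h ha with rfl | h1
  · exact Or.inl hv
  · rw [show a = Sum.inl (w * sg i) from h1] at hv
    exact Or.inr hv

theorem face_near (hm : 100 ≤ m) {k : ℕ} {p q : (Fine m k).V} (h : (Fine m k).Adj p q)
    (hp : ∀ w ∈ near p, ρ w ∉ H) (hq : ∀ w ∈ near q, ρ w ∉ H)
    (s : Finset {v : V // v ∉ (H : Set V)}) (hs : s.Nonempty)
    (hs' : ∀ x ∈ s, x ∈ img ρ H (near p ∪ near q)) :
    s ∈ (blk (nbG ρ) c (H : Set V)).faces := by
  obtain ⟨u1, u2⟩ := used_of_adj hm h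
  rcases near_cases hm h with ⟨s', hc, ⟨w, i, rfl⟩, hsub⟩ | ⟨w, i, hc⟩
  · refine face_sq ρ c H ?_ hsub s hs hs'
    rcases hc with hc | hc
    · have h1 := (near_inr hm u1 hc).2
      intro x hx
      rw [← h1] at hx
      exact hp x hx
    · have h1 := (near_inr hm u2 hc).2
      intro x hx
      rw [← h1] at hx
      exact hq x hx
  · refine face_ed ρ c H (N := near p ∪ near q) (w := w) (i := i) ?_ ?_ s hs hs'
    · rintro x (hx | hx)
      · exact hp x hx
      · exact hq x hx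
    · exact Set.union_subset (near_ed fun a ha => hc (Or.inl ha))
        (near_ed fun a ha => hc (Or.inr ha))

private theorem used_cases (hm : 100 ≤ m) {k : ℕ} {p : (Fine m k).V} (h : Used p) :
    (∃ w i, near p = sqv nW w i) ∨
      ∃ (w : Wm m) (i : Lab m), (plane m).car k p ⊆ {Sum.inl w, Sum.inl (w * sg i)} := by
  by_cases hs : ∃ s, Sum.inr s ∈ (plane m).car k p
  · obtain ⟨s, hs⟩ := hs
    obtain ⟨⟨w, i, h1⟩, h2⟩ := near_inr hm h hs
    exact Or.inl ⟨w, i, h2.trans h1⟩
  · right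
    obtain ⟨q, r, hr⟩ := h
    obtain ⟨x, y, z, hT, hc⟩ := Srf.car_tri (plane_good hm) k hr
    have hc' : ∀ a ∈ (plane m).car k p, a = x ∨ a = y ∨ a = z :=
      fun a ha => hc (Or.inl (Or.inl ha))
    rcases hT with ⟨w, i, rfl, rfl, rfl⟩ | ⟨w, i, rfl, rfl, rfl⟩ | ⟨w, i, rfl, rfl, rfl⟩
    · refine ⟨w, i, fun a ha => ?_⟩
      rcases hc' a ha with rfl | rfl | rfl
      · exact Or.inl rfl
      · exact Or.inr rfl
      · exact absurd ⟨_, ha⟩ hs
    · refine ⟨w, i, fun a ha => ?_⟩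
      rcases hc' a ha with rfl | rfl | rfl
      · exact absurd ⟨_, ha⟩ hs
      · exact Or.inl rfl
      · exact Or.inr rfl
    · refine ⟨w, i, fun a ha => ?_⟩
      rcases hc' a ha with rfl | rfl | rfl
      · exact Or.inr rfl
      · exact absurd ⟨_, ha⟩ hs
      · exact Or.inl rfl

theorem face_near' (hm : 100 ≤ m) {k : ℕ} {p : (Fine m k).V} (h : Used p)
    (hp : ∀ w ∈ near p, ρ w ∉ H) (s : Finset {v : V // v ∉ (H : Set V)}) (hs : s.Nonempty)
    (hs' : ∀ x ∈ s, x ∈ img ρ H (near p)) : s ∈ (blk (nbG ρ) c (H : Set V)).faces := by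
  rcases used_cases hm h with ⟨w, i, he⟩ | ⟨w, i, hc⟩
  · exact face_sq ρ c H (fun x hx => hp x (he ▸ hx)) he.subset s hs hs'
  · exact face_ed ρ c H hp (near_ed hc) s hs hs'

private theorem chn_singles {U : Type} {nb : U → Lab m → U} {c : U → Rot m} (x : U)
    (l : List (Lab m)) : Chn nb c x (l.map fun i => [i]) := by
  induction l generalizing x with
  | nil => trivial
  | cons i l ih => exact ⟨seg_single x i, ih _⟩

private theorem flatten_singles (l : List (Lab m)) : (l.map fun i => [i]).flatten = l := by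
  induction l with
  | nil => rfl
  | cons i l ih =>
    rw [List.map_cons, List.flatten_cons, ih]
    rfl

theorem con_block (hρ : Function.Surjective ρ) {B : Set V}
    (hB : IsBlk (nbG ρ) c (H : Set V) B) {x y : V} (hx : x ∈ B) (hy : y ∈ B) :
    Con (nbG ρ) c (H : Set V) 2 x y := by
  obtain ⟨hH, ⟨v, i, rfl⟩ | ⟨e, t, rfl⟩⟩ := hB
  · obtain ⟨w, rfl⟩ := hρ v
    rw [sqv_rho] at hH hx hy
    obtain ⟨x', hx', rfl⟩ := hx
    obtain ⟨y', hy', rfl⟩ := hy
    obtain ⟨l, h1, h2, h3⟩ := sq_path hx' hy'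
    refine ⟨l.map fun i => [i], ?_, chn_singles _ _, ?_, ?_⟩
    · rw [List.length_map]
      exact h1
    · rw [flatten_singles, ← h2]
      exact (walk_map ρ (fun x i => map_mul ρ x (sg i)) x' l).symm
    · intro p hp
      rw [flatten_singles] at hp
      have h4 : walk (nbG ρ) (ρ x') p = ρ (walk nW x' p) :=
        (walk_map ρ (fun x i => map_mul ρ x (sg i)) x' p).symm
      rw [h4]
      exact hH _ ⟨_, h3 p hp, rfl⟩
  · obtain ⟨i, hi, rfl⟩ := hx
    obtain ⟨j, hj, rfl⟩ := hy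
    exact con_mono one_le_two subset_rfl (con_run (invol_nbG ρ) e t
      (fun j hj => hH _ ⟨j, hj, rfl⟩) hi hj)

theorem con_edge2 (hρ : Function.Surjective ρ) {x y : {v : V // v ∉ (H : Set V)}}
    (h : UWT.Edge (blk (nbG ρ) c (H : Set V)) x y) :
    Con (nbG ρ) c (H : Set V) 2 x.1 y.1 := by
  obtain ⟨s, ⟨-, B, hB, hs⟩, hx, hy⟩ := h
  exact con_block ρ c H hρ hB (hs x hx) (hs y hy)

theorem con_near (hρ : Function.Surjective ρ) (n : ℕ) {x y : {v : V // v ∉ (H : Set V)}}
    (h : UWT.Near (blk (nbG ρ) c (H : Set V)) n x y) :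
    Con (nbG ρ) c (H : Set V) (2 * n) x.1 y.1 := by
  induction n generalizing x with
  | zero =>
    have e : x = y := h
    subst e
    exact con_refl x.2
  | succ n ih =>
    obtain ⟨u, h1, h2⟩ := h
    exact con_mono (by omega) subset_rfl (con_trans (con_edge2 ρ c H hρ h1) (ih h2))

end URW
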