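import Pool.Agent.URW.B.Walk

/-!
# URW B/Chain: the relation joined by a chain of at most `j` segments avoiding `A`

PROOFS.
* `con_refl`: the empty chain. `con_mono`: clear.
* `con_trans`: concatenate; a prefix of `D ++ D'` is a prefix of `D` or `D ++` (prefix of `D'`)
  (`List.prefix_append_or...`, or `List.prefix_iff_eq_take` and `List.take_append`).
* `con_symm`: `chn_reverse`, `flatten_reverse'`; a prefix of the reversed word leads to the same
  vertices (`walk_reverse` for the remaining part).
* `con_edge`: the chain `[[i]]`.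
* `con_run`: the vertices of a run `e, nxt e, ..., nxt^[t] e` avoiding `A`: by `runFrom_of_nxt`.
-/

set_option autoImplicit false

namespace URW

variable {m : ℕ} {U : Type} {nb : U → Lab m → U} {c : U → Rot m} {A A' : Set U}

theorem con_refl {a : U} (h : a ∉ A) : Con nb c A 0 a a := by
  refine ⟨[], le_rfl, trivial, walk_nil a, ?_⟩
  intro p hp
  rw [List.flatten_nil, List.prefix_nil] at hp
  rw [hp, walk_nil]
  exact h

theorem con_mono {i j : ℕ} (hij : i ≤ j) (hA : A' ⊆ A) {a b : U} (h : Con nb c A i a b) :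
    Con nb c A' j a b := by
  obtain ⟨ds, h1, h2, h3, h4⟩ := h
  exact ⟨ds, h1.trans hij, h2, h3, fun p hp hc => h4 p hp (hA hc)⟩

theorem con_trans {i j : ℕ} {a b d : U} (h : Con nb c A i a b) (h' : Con nb c A j b d) :
    Con nb c A (i + j) a d := by
  obtain ⟨ds, h1, h2, h3, h4⟩ := h
  obtain ⟨ds', h1', h2', h3', h4'⟩ := h'
  refine ⟨ds ++ ds', ?_, ?_, ?_, ?_⟩
  · rw [List.length_append]
    exact add_le_add h1 h1'
  · rw [chn_append, h3]
    exact ⟨h2, h2'⟩
  · rw [List.flatten_append, walk_append, h3, h3']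
  · intro p hp
    rw [List.flatten_append] at hp
    obtain ⟨t, ht⟩ := hp
    rcases List.append_eq_append_iff.1 ht with ⟨u, hu, -⟩ | ⟨u, hu, hu'⟩
    · exact h4 p ⟨u, hu.symm⟩
    · rw [hu, walk_append, h3]
      exact h4' u ⟨t, hu'.symm⟩

theorem con_symm (hI : Invol nb) {j : ℕ} {a b : U} (h : Con nb c A j a b) :
    Con nb c A j b a := by
  obtain ⟨ds, h1, h2, h3, h4⟩ := h
  refine ⟨(ds.map List.reverse).reverse, ?_, ?_, ?_, ?_⟩
  · rw [List.length_reverse, List.length_map]
    exact h1
  · rw [← h3]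
    exact chn_reverse hI h2
  · rw [flatten_reverse', ← h3, walk_reverse hI]
  · intro p hp
    rw [flatten_reverse'] at hp
    obtain ⟨t, ht⟩ := hp
    have e : ds.flatten = t.reverse ++ p.reverse := by
      rw [← List.reverse_append, ht, List.reverse_reverse]
    have e2 : walk nb b p = walk nb a t.reverse := by
      rw [← h3, e, walk_append]
      have := walk_reverse hI (walk nb a t.reverse) p.reverse
      rw [List.reverse_reverse] at this
      exact this
    rw [e2]
    exact h4 _ ⟨p.reverse, e.symm⟩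

theorem con_left {j : ℕ} {a b : U} (h : Con nb c A j a b) : a ∉ A := by
  obtain ⟨ds, -, -, -, h4⟩ := h
  have := h4 [] (List.nil_prefix)
  rwa [walk_nil] at this

theorem con_right {j : ℕ} {a b : U} (h : Con nb c A j a b) : b ∉ A := by
  obtain ⟨ds, -, -, h3, h4⟩ := h
  rw [← h3]
  exact h4 _ (List.prefix_refl _)

theorem con_edge {a : U} (i : Lab m) (h : a ∉ A) (h' : nb a i ∉ A) : Con nb c A 1 a (nb a i) := by
  refine ⟨[[i]], le_rfl, ⟨seg_single a i, trivial⟩, ?_, ?_⟩
  · change walk nb a [i] = nb a i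
    rw [walk_cons, walk_nil]
  · intro p hp
    change p <+: [i] at hp
    cases p with
    | nil =>
      rw [walk_nil]
      exact h
    | cons x p =>
      rw [List.cons_prefix_cons, List.prefix_nil] at hp
      rw [hp.1, hp.2, walk_cons, walk_nil]
      exact h'

private theorem con_run_aux (e : U × Lab m) (t : ℕ)
    (h : ∀ j ≤ t, ((nxt nb c)^[j] e).1 ∉ A) {i j : ℕ} (hij : i ≤ j) (hj : j ≤ t) :
    Con nb c A 1 ((nxt nb c)^[i] e).1 ((nxt nb c)^[j] e).1 := by
  obtain ⟨h1, h2⟩ := runFrom_of_nxt (nb := nb) (c := c) ((nxt nb c)^[i] e) (j - i)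
  set w := (List.range (j - i)).map fun k => ((nxt nb c)^[k] ((nxt nb c)^[i] e)).2 with hw
  have hlen : w.length = j - i := by
    rw [hw, List.length_map, List.length_range]
  refine ⟨[w], le_rfl, ⟨Or.inl h1, trivial⟩, ?_, ?_⟩
  · rw [List.flatten_singleton]
    have h3 := h2 (j - i) le_rfl
    rw [List.take_of_length_le hlen.le, ← Function.iterate_add_apply,
      Nat.sub_add_cancel hij] at h3
    exact h3
  · intro p hp
    rw [List.flatten_singleton] at hp
    have h3 : p.length ≤ j - i := hlen ▸ hp.length_le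
    rw [List.prefix_iff_eq_take.1 hp, h2 _ h3, ← Function.iterate_add_apply]
    exact h _ (by omega)

/-- Two vertices of a run without points of `A` are joined by one segment. -/
theorem con_run (hI : Invol nb) (e : U × Lab m) (t : ℕ)
    (h : ∀ j ≤ t, ((nxt nb c)^[j] e).1 ∉ A) {i j : ℕ} (hi : i ≤ t) (hj : j ≤ t) :
    Con nb c A 1 ((nxt nb c)^[i] e).1 ((nxt nb c)^[j] e).1 := by
  rcases le_total i j with hij | hij
  · exact con_run_aux e t h hij hj
  · exact con_symm hI (con_run_aux e t h hij hi)

end URW
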