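import Pool.Agent.URW.B.Near
import Pool.Agent.URW.B.Ang

/-!
# URW B/Cls: holes are far apart; classes of fine vertices

PROOFS.
* `hole_sep`: let `h, h' ∈ HW`, `walk nW h l = h'`, `|l| ≤ 10`. By `sparse`, `ρ h = ρ h'`
  (`rho_walk`); `eq_of_rho` (`10 ≤ n` by `big`).
* `hole_sq`: two holes in a square are equal (`sq_path`).
* `cls_con`: let `Cls p q`, i.e. a sequence `p = q₀, q₁, ..., q_t = q` of adjacent `Ok` vertices with
  the same label. INDUCTION on `t`: for every `b ∈ near q_t` one has `Con nW cW HW k1 a b`.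
  By the field `con` (labels of `p` and `q_t` agree) and `con_lift` there is `b'` with
  `ρ b' = ρ b` and `Con nW cW HW k1 a b'`; we show `b' = b`. By induction
  `Con nW cW HW k1 a b''` for some `b'' ∈ near q_{t-1}` (`near_nonempty`; if `t = 0` take
  `b'' = a`), and `b''`, `b` are in one square (`near_adj`; for `t = 0` also, `near p` is in a
  square since `p` is used), so they are joined by a word of length `≤ 2` (`sq_path`). With
  `con_len` we get a word from `b'` to `a` to `b''` to `b` of length `≤ 2 k1 L + 2 ≤ n`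
  (`big`), and `eq_of_rho` gives `b' = b`.
* `tri_cls`: field `three`; the vertices of a triangle are adjacent (`Good.rot`, `Good.it`,
  `plane_good`).
* `cls_trk`: `trk g` preserves adjacency (the length of `g` is even by the field `even`), `Ok`
  (`near_trk`, `ρ (g w) = ρ w`) and labels (field `inv`).
-/

set_option autoImplicit false

namespace URW

variable {m : ℕ}

namespace Sys

variable {V : Type} [Group V] (X : Sys m V)

include X in
theorem hm100 : 100 ≤ m := by
  have := X.hm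
  omega

theorem hole_sep {h h' : Wm m} (hh : h ∈ X.HW) (hh' : h' ∈ X.HW) {l : List (Lab m)}
    (hl : l.length ≤ 10) (hw : walk nW h l = h') : h = h' := by
  have h1 : walk (nbG X.ρ) (X.ρ h) l = X.ρ h' := by rw [← rho_walk, hw]
  have h2 : walk (nbG X.ρ) (X.ρ h) l = X.ρ h :=
    X.sparse (X.ρ h) hh l hl (by rw [h1]; exact hh')
  have h3 := X.big
  refine X.eq_of_rho (h2.symm.trans h1) hw ?_
  nlinarith [Nat.zero_le (X.K * X.L), Nat.zero_le X.K, Nat.zero_le X.L]

theorem hole_sq {h h' w : Wm m} {i : Lab m} (hh : h ∈ X.HW) (hh' : h' ∈ X.HW)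
    (h1 : h ∈ sqv nW w i) (h2 : h' ∈ sqv nW w i) : h = h' := by
  obtain ⟨l, hl, hw, -⟩ := sq_path h1 h2
  exact X.hole_sep hh hh' (hl.trans (by norm_num)) hw

theorem cls_refl {p : (Fine m X.k).V} (hp : X.Ok p) : X.Cls p p := by
  exact ⟨hp, Relation.ReflTransGen.refl⟩

/-- The end of a sequence of steps. -/
private theorem rtg_ok {p q : (Fine m X.k).V} (hp : X.Ok p) (h : Relation.ReflTransGen
    (fun p q => (Fine m X.k).Adj p q ∧ X.Ok p ∧ X.Ok q ∧ X.lab p = X.lab q) p q) :
    X.Ok q ∧ X.lab p = X.lab q := by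
  induction h with
  | refl => exact ⟨hp, rfl⟩
  | tail _ h2 ih => exact ⟨h2.2.2.1, ih.2.trans h2.2.2.2⟩

theorem cls_symm {p q : (Fine m X.k).V} (h : X.Cls p q) : X.Cls q p := by
  refine ⟨(X.rtg_ok h.1 h.2).1, ?_⟩
  have h1 := h.2
  clear h
  induction h1 with
  | refl => exact Relation.ReflTransGen.refl
  | tail _ h2 ih =>
    exact Relation.ReflTransGen.head
      ⟨adj_symm X.hm100 h2.1, h2.2.2.1, h2.2.1, h2.2.2.2.symm⟩ ih

theorem cls_trans {p q r : (Fine m X.k).V} (h : X.Cls p q) (h' : X.Cls q r) : X.Cls p r := by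
  exact ⟨h.1, h.2.trans h'.2⟩

theorem cls_ok {p q : (Fine m X.k).V} (h : X.Cls p q) : X.Ok p ∧ X.Ok q ∧ X.lab p = X.lab q := by
  exact ⟨h.1, X.rtg_ok h.1 h.2⟩

theorem cls_step {p q : (Fine m X.k).V} (h : (Fine m X.k).Adj p q) (hp : X.Ok p) (hq : X.Ok q)
    (hl : X.lab p = X.lab q) : X.Cls p q := by
  exact ⟨hp, Relation.ReflTransGen.single ⟨h, hp, hq, hl⟩⟩

/-- A fine walk inside the class. -/
theorem cls_walk {p q : (Fine m X.k).V} (h : X.Cls p q) :
    ∃ l : List (Fine m X.k).V, (Fine m X.k).Wlk (p :: l) ∧ (p :: l).getLast? = some q ∧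
      ∀ r ∈ p :: l, X.Cls p r := by
  obtain ⟨hp, h1⟩ := h
  induction h1 with
  | refl =>
    refine ⟨[], List.isChain_singleton p, rfl, ?_⟩
    intro r hr
    rw [List.mem_singleton] at hr
    rw [hr]
    exact X.cls_refl hp
  | @tail q r h1 h2 ih =>
    obtain ⟨l, hl, hq, hc⟩ := ih
    refine ⟨l ++ [r], ?_, ?_, ?_⟩
    · rw [← List.cons_append]
      refine List.IsChain.append hl (List.isChain_singleton r) ?_
      intro x hx y hy
      rw [hq] at hx
      simp only [Option.mem_def, Option.some.injEq] at hx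
      simp only [List.head?_cons, Option.mem_def, Option.some.injEq] at hy
      rw [← hx, ← hy]
      exact h2.1
    · rw [← List.cons_append, List.getLast?_append]
      simp
    · intro s hs
      rw [← List.cons_append, List.mem_append, List.mem_singleton] at hs
      rcases hs with hs | rfl
      · exact hc s hs
      · exact ⟨hp, h1.tail h2⟩

/-- The lift of the chain in the quotient ends at the right vertex. -/
private theorem con_aux {p q : (Fine m X.k).V} (h : X.Cls p q) {a b b' : Wm m} (ha : a ∈ near p)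
    (hb : b ∈ near q) {l l' : List (Lab m)} (hl : l.length ≤ X.k1 * X.L) (hl' : l'.length ≤ 2)
    (hw : walk nW a l = b') (hw' : walk nW b' l' = b) : Con nW X.cW X.HW X.k1 a b := by
  obtain ⟨hp, hq, hpq⟩ := X.cls_ok h
  obtain ⟨b₀, h1, h2⟩ := X.con_lift (X.con p q hp.1 hq.1 hp.2 hq.2 hpq a ha b hb)
  obtain ⟨l₀, h3, h4⟩ := X.con_len h2
  have h5 : walk nW b₀ (l₀.reverse ++ (l ++ l')) = b := by
    rw [walk_append, walk_append, ← h4, walk_reverse invol_nW, hw, hw']
  have h6 := X.big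
  have h7 : b₀ = b := by
    refine X.eq_of_rho h1 h5 ?_
    rw [List.length_append, List.length_append, List.length_reverse]
    unfold k1 at hl
    nlinarith [Nat.zero_le (X.K * X.L), Nat.zero_le X.K, Nat.zero_le X.L]
  rw [← h7]
  exact h2

theorem cls_con {p q : (Fine m X.k).V} (h : X.Cls p q) {a b : Wm m} (ha : a ∈ near p)
    (hb : b ∈ near q) : Con nW X.cW X.HW X.k1 a b := by
  obtain ⟨hp, h1⟩ := h
  induction h1 generalizing b with
  | refl =>
    obtain ⟨⟨q, hq⟩, -⟩ := id hp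
    obtain ⟨w, i, hs⟩ := near_adj X.hm100 hq
    obtain ⟨l, hl, hw, -⟩ := sq_path (hs (Or.inl ha)) (hs (Or.inl hb))
    exact X.con_aux (X.cls_refl hp) ha hb (l := []) (Nat.zero_le _) hl (walk_nil a) hw
  | @tail q r h1 h2 ih =>
    obtain ⟨b', hb'⟩ := near_nonempty X.hm100 h2.2.1.1
    obtain ⟨w, i, hs⟩ := near_adj X.hm100 h2.1
    obtain ⟨l', hl', hw', -⟩ := sq_path (hs (Or.inl hb')) (hs (Or.inr hb))
    obtain ⟨l, hl, hw⟩ := X.con_len (ih hb')
    exact X.con_aux ⟨hp, h1.tail h2⟩ ha hb hl hl' hw hw'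

theorem tri_cls {p q r : (Fine m X.k).V} (h : (Fine m X.k).T p q r) (hp : X.Ok p) (hq : X.Ok q)
    (hr : X.Ok r) : X.Cls p q ∨ X.Cls q r ∨ X.Cls p r := by
  have hG := (plane_good X.hm100).it X.k
  have h1 := hG.rot _ _ _ h
  have h2 := hG.rot _ _ _ h1
  rcases X.three p q r h hp.2 hq.2 hr.2 with h3 | h3 | h3
  · exact Or.inl (X.cls_step ⟨r, h⟩ hp hq h3)
  · exact Or.inr (Or.inl (X.cls_step ⟨p, h1⟩ hq hr h3))
  · exact Or.inr (Or.inr (X.cls_step (adj_symm X.hm100 ⟨q, h2⟩) hp hr h3))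

theorem ok_trk {g : Wm m} (hg : X.ρ g = 1) {p : (Fine m X.k).V} (hp : X.Ok p) :
    X.Ok (trk X.k g p) := by
  refine ⟨trk_used (X.even g hg) hp.1, ?_⟩
  intro w hw
  rw [near_trk] at hw
  obtain ⟨v, hv, rfl⟩ := hw
  intro h1
  refine hp.2 v hv ?_
  have h2 : X.ρ (g * v) ∈ X.H := h1
  rw [map_mul, hg, one_mul] at h2
  exact h2

theorem cls_trk {g : Wm m} (hg : X.ρ g = 1) {p q : (Fine m X.k).V} (h : X.Cls p q) :
    X.Cls (trk X.k g p) (trk X.k g q) := by
  refine ⟨X.ok_trk hg h.1, ?_⟩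
  refine Relation.ReflTransGen.lift (trk X.k g) ?_ _ _ h.2
  intro a b hab
  refine ⟨trk_adj (X.even g hg) hab.1, X.ok_trk hg hab.2.1, X.ok_trk hg hab.2.2.1, ?_⟩
  rw [X.inv g hg, X.inv g hg]
  exact hab.2.2.2

end Sys

end URW
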