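import Pool.Agent.URW.B.Ang

/-!
# URW B/Cone: a simple chain stays in a cone

Pure statements about words of `Wm m`; `pr = UWW.pr (cm m)`.
PROOFS.
* `cone_head`: `u = a :: u'`, induction on `u'`. If `u' = []` this is `Ld_down` (`cd (a - b) ≥ 3`
  since the word is nice). If `u' = a' :: u''`, then `Ld (pr u' * y) = {a'}` by induction and
  `Ld (s_a * (pr u' * y)) = {a}` by `Ld_down` with `a' ∈ Ld (pr u' * y)`, `cd (a - a') ≥ 3`.
* `cone_step`: INDUCTION on `B`, for all `u, b, y`. `B = []`: `cone_head` (`p = []`).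
  `B = d :: B'`: then `u.length ≥ 2`; write `u = u₀ ++ [a]`, `u₀ ≠ []`. Let `e` be a prefix of `d`.
  By hypothesis `pr u * y * pr e ≠ pr u`, so `y * pr e ≠ 1`; this holds for all prefixes, so by
  `th_nice` `sm (th (y * pr e) - th y) ≤ 1`, and `Ld_far` (`cd (a - b) ≥ 3`, `b ∈ Ld y`) gives
  `a ∉ Ld (y * pr e)`, hence `a ∈ Ld (s_a * (y * pr e))` (`UWW.len_s_mul`: the length grows, and
  `s_a * (s_a * z) = z`). So with `y' = s_a * y * pr e` we have `pr u * y * pr e = pr u₀ * y'`,
  `a ∈ Ld y'`: for `p = e` conclude with `cone_head` for `u₀ ++ [a]`; for `p = d ++ p'`,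
  `p' <+: B'.flatten`, use the induction hypothesis for `u₀, a, y' = s_a * y * pr d` and `B'` (the
  elements to be avoided are among the old ones).
* `cone_after`: let `b'` be the last letter of `b :: v` and `u` the rest (`u ≠ []` as the length is
  at least `2`). If `p` is a prefix of `b :: v`, `p ≠ []`: `Ld_nice`. Otherwise
  `p = (b :: v) ++ p'`, `p' <+: B.flatten`: `cone_step` with `y = s_{b'}` (`Ld (s_{b'}) = {b'}` by
  `Ld_nice`); the products `pr (u.take j)` are avoided by simplicity.
-/

set_option autoImplicit false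

namespace URW

variable {m : ℕ}

theorem cone_head (hm : 100 ≤ m) {a b : Lab m} {u : List (Lab m)} {y : Wm m}
    (hn : NiceW ((a :: u) ++ [b])) (hb : b ∈ UWW.Ld y) :
    UWW.Ld (UWW.pr (cm m) (a :: u) * y) = {a} := by
  induction u generalizing a with
  | nil =>
    have h : NiceW [a, b] := hn
    rw [UWW.pr_cons, UWW.pr_nil, mul_one]
    exact Ld_down hm (nice_cons.1 h).1 hb
  | cons a' u ih =>
    have h : NiceW (a :: a' :: (u ++ [b])) := hn
    obtain ⟨h1, h2⟩ := nice_cons.1 h
    have h3 := ih (a := a') h2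
    rw [UWW.pr_cons, mul_assoc]
    exact Ld_down hm h1 (by rw [h3]; rfl)

/-- Nice words: two last letters. -/
private theorem nice_snoc {l : List (Lab m)} {c b : Lab m} (h : NiceW ((l ++ [c]) ++ [b])) :
    NiceW (l ++ [c]) ∧ 3 ≤ cd (c - b) := by
  have h' : List.IsChain (fun i j : Lab m => 3 ≤ cd (i - j)) ((l ++ [c]) ++ [b]) := h
  obtain ⟨h1, -, h3⟩ := List.isChain_append.1 h'
  exact ⟨h1, h3 c (by simp) b (by simp)⟩

/-- The next element still has `c` as a descent. -/
private theorem desc_next (hm : 100 ≤ m) {c b : Lab m} (hcb : 3 ≤ cd (c - b)) {y : Wm m}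
    (hb : b ∈ UWW.Ld y) {d : List (Lab m)} (hd : NiceW d)
    (h : ∀ e, e <+: d → y * UWW.pr (cm m) e ≠ 1) {e : List (Lab m)} (he : e <+: d) :
    c ∈ UWW.Ld (sg c * (y * UWW.pr (cm m) e)) := by
  have h1 : sm (th (walk nW y e) - th (walk nW y [])) ≤ 1 :=
    th_nice hm hd (fun p hp => by rw [walk_nW]; exact h p hp) e [] he List.nil_prefix
  have h2 : walk nW y [] = y := rfl
  rw [walk_nW, h2] at h1
  have h3 : c ∉ UWW.Ld (y * UWW.pr (cm m) e) := Ld_far hm hcb hb (h e he) h1
  rcases UWW.len_s_mul c (y * UWW.pr (cm m) e) with ⟨-, h4⟩ | ⟨h4, -⟩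
  · change UWW.len (UWW.s (cm m) c * (UWW.s (cm m) c * (y * UWW.pr (cm m) e))) <
      UWW.len (UWW.s (cm m) c * (y * UWW.pr (cm m) e))
    rw [UWW.s_mul_s_mul, h4]
    exact Nat.lt_succ_self _
  · exact absurd h4 h3

theorem cone_step (hm : 100 ≤ m) {B : List (List (Lab m))} (hB : ∀ d ∈ B, NiceW d) {a b : Lab m}
    {u : List (Lab m)} {y : Wm m} (hn : NiceW ((a :: u) ++ [b])) (hb : b ∈ UWW.Ld y)
    (hl : B.length + 1 ≤ (a :: u).length)
    (ha : ∀ p, p <+: B.flatten → ∀ j ≤ (a :: u).length,
      UWW.pr (cm m) (a :: u) * y * UWW.pr (cm m) p ≠ UWW.pr (cm m) ((a :: u).take j))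
    {p : List (Lab m)} (hp : p <+: B.flatten) :
    UWW.Ld (UWW.pr (cm m) (a :: u) * y * UWW.pr (cm m) p) = {a} := by
  induction B generalizing b u y p with
  | nil =>
    rw [List.flatten_nil, List.prefix_nil] at hp
    rw [hp, UWW.pr_nil, mul_one]
    exact cone_head hm hn hb
  | cons d B ih =>
    rcases List.eq_nil_or_concat u with hu | ⟨u₀, c, hu⟩
    · rw [hu, List.length_cons, List.length_singleton] at hl
      omega
    · rw [List.concat_eq_append] at hu
      subst hu
      have e1 : a :: (u₀ ++ [c]) = (a :: u₀) ++ [c] := rfl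
      rw [List.flatten_cons] at hp ha
      rw [e1] at hn hl ha ⊢
      obtain ⟨hn1, hcb⟩ := nice_snoc hn
      have hd : NiceW d := hB d List.mem_cons_self
      have e2 : ∀ z : Wm m, UWW.pr (cm m) ((a :: u₀) ++ [c]) * z =
          UWW.pr (cm m) (a :: u₀) * (sg c * z) := by
        intro z
        rw [UWW.pr_append, UWW.pr_cons _ c [], UWW.pr_nil, mul_one, mul_assoc]
      have hne : ∀ e, e <+: d → y * UWW.pr (cm m) e ≠ 1 := by
        intro e he hc
        refine ha e (he.trans (List.prefix_append _ _)) ((a :: u₀) ++ [c]).length le_rfl ?_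
        rw [List.take_length, mul_assoc, hc, mul_one]
      obtain ⟨t, ht⟩ := hp
      rcases List.append_eq_append_iff.1 ht with ⟨v, hv, -⟩ | ⟨v, hv, hv'⟩
      · rw [mul_assoc, e2]
        exact cone_head hm hn1 (desc_next hm hcb hb hd hne ⟨v, hv.symm⟩)
      · have e3 : ∀ q : List (Lab m), UWW.pr (cm m) ((a :: u₀) ++ [c]) * y *
            UWW.pr (cm m) (d ++ q) = UWW.pr (cm m) (a :: u₀) *
              (sg c * (y * UWW.pr (cm m) d)) * UWW.pr (cm m) q := by
          intro q
          rw [UWW.pr_append _ d q, mul_assoc, e2]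
          simp only [mul_assoc]
        rw [hv, e3]
        refine ih (fun d' hd' => hB d' (List.mem_cons_of_mem _ hd')) hn1
          (desc_next hm hcb hb hd hne (List.prefix_refl d)) ?_ ?_ ⟨t, hv'.symm⟩
        · rw [List.length_append, List.length_cons, List.length_singleton] at hl
          omega
        · intro q hq j hj hc
          refine ha (d ++ q) ((List.prefix_append_right_inj d).2 hq) j ?_ ?_
          · rw [List.length_append]
            omega
          · rw [e3, hc, List.take_append_of_le_length hj]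

theorem cone_after (hm : 100 ≤ m) {B : List (List (Lab m))} (hB : ∀ d ∈ B, NiceW d) {b : Lab m}
    {v : List (Lab m)} (hn : NiceW (b :: v)) (hl : B.length + 2 ≤ (b :: v).length)
    (hs : ∀ p q, p <+: (b :: v) ++ B.flatten → q <+: (b :: v) ++ B.flatten →
      UWW.pr (cm m) p = UWW.pr (cm m) q → p = q)
    {p : List (Lab m)} (hp : p <+: (b :: v) ++ B.flatten) (hp0 : p ≠ []) :
    UWW.Ld (UWW.pr (cm m) p) = {b} := by
  rcases List.eq_nil_or_concat v with hv | ⟨v₀, c, hv⟩
  · rw [hv, List.length_singleton] at hl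
    omega
  · rw [List.concat_eq_append] at hv
    subst hv
    have e1 : b :: (v₀ ++ [c]) = (b :: v₀) ++ [c] := rfl
    have hp' := hp
    obtain ⟨t, ht⟩ := hp
    rcases List.append_eq_append_iff.1 ht with ⟨w, hw, -⟩ | ⟨w, hw, hw'⟩
    · cases p with
      | nil => exact absurd rfl hp0
      | cons b' p =>
        rw [List.cons_append] at hw
        obtain ⟨h1, h2⟩ := List.cons_eq_cons.1 hw
        subst h1
        rw [h2] at hn
        have hn' : NiceW ((b :: p) ++ w) := hn
        exact Ld_nice hm (List.isChain_append.1 hn').1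
    · have hc : c ∈ UWW.Ld (sg c : Wm m) := by
        have h1 : UWW.Ld (UWW.pr (cm m) [c]) = {c} :=
          Ld_nice hm (List.isChain_singleton c)
        rw [UWW.pr_cons, UWW.pr_nil, mul_one] at h1
        rw [h1]
        rfl
      have e2 : ∀ q : List (Lab m), UWW.pr (cm m) ((b :: (v₀ ++ [c])) ++ q) =
          UWW.pr (cm m) (b :: v₀) * sg c * UWW.pr (cm m) q := by
        intro q
        rw [e1, UWW.pr_append, UWW.pr_append, UWW.pr_cons _ c [], UWW.pr_nil, mul_one]
      rw [hw, e2]
      refine cone_step hm hB hn hc ?_ ?_ ⟨t, hw'.symm⟩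
      · rw [e1, List.length_append, List.length_singleton] at hl
        omega
      · intro q hq j hj hc'
        rw [← e2] at hc'
        have h1 : (b :: v₀).take j <+: (b :: (v₀ ++ [c])) ++ B.flatten := by
          rw [e1, List.append_assoc]
          exact (List.take_prefix j _).trans (List.prefix_append _ _)
        have h2 := hs _ _ ((List.prefix_append_right_inj _).2 hq) h1 hc'
        have h3 := congrArg List.length h2
        rw [List.length_append, List.length_take, e1, List.length_append,
          List.length_singleton] at h3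
        have h4 := Nat.min_le_right j (b :: v₀).length
        omega

end URW
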