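import Pool.Agent.URW.B.Near

/-!
# URW B/Crd: barycentric coordinates of the fine vertices in the block complex

The vertex `inl w` of the plane goes to the vertex `ρ w` (to `0` if `ρ w` is a hole), the centre
`inr s` of a square to the barycentre of its corners. `Srf.pos` extends this affinely to the fine
vertices. `Dst f S` means: `f` is a probability distribution with support exactly `S`.
PROOFS.
* `dst_single`: `Finsupp.single`. `dst_sum`: a positive convex combination of distributions is a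
  distribution, its support is the union (nonnegative terms, positive weights).
* `dst_crd_inl`: `dst_single`. `dst_crd_inr`: `s = sqv nW w i` has four elements (`sq_card`), so
  `∑ᶠ w ∈ s, crdl w` is the sum over the finset `s.toFinset` (`finsum_mem_eq_finite_toFinset_sum`)
  of four distributions, times `1 / 4` (`dst_sum` with the weights `1 / 4`).
* `dst_pos`: `Srf.pos_conv`: `pos = ∑ v ∈ car, t v • crd v`, all `v` in the carrier have `cor v ⊆
  near p` without holes; if `inr s` is in the carrier then `s` is a square (`near_inr`). The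
  support is the union of the `ρ '' cor v`, i.e. `ρ '' near p`.
* `crd_trans`: for `ρ g = 1`: `crdl (g * w) = crdl w` (`ρ (g * w) = ρ w`), and for a square use
  `finsum_mem_image` for the injective map `w ↦ g * w`.
* `pos_trk`: `Srf.mp_pos` and `crd_trans`.
* `pos_edge`: `Srf.pos_adj`: the difference is `(1 / 2 ^ k) • (crd y - crd x)` with `x, y` adjacent in
  the plane; `nrm (crd x) ≤ 1 / 2` always (`crdl w` is `0` or a unit vector; a barycentre has norm
  `≤ 1 / 2` if `s` is a square; if `s` is not a square then `inr s` has no neighbours (`adj_inr`),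
  so this case does not occur), so `nrm (crd y - crd x) ≤ 1`.
-/

set_option autoImplicit false

open Classical

namespace URW

variable {m : ℕ} {V : Type} [Group V]

/-- Probability distribution with support `S`. -/
def Dst {X : Type} (f : X →₀ ℝ) (S : Set X) : Prop :=
  (∀ x, 0 ≤ f x) ∧ ∑ x ∈ f.support, f x = 1 ∧ (f.support : Set X) = S

theorem dst_single {X : Type} (x : X) : Dst (Finsupp.single x (1 : ℝ)) {x} := by
  have h : (Finsupp.single x (1 : ℝ)).support = {x} := Finsupp.support_single x one_ne_zero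
  refine ⟨fun y => ?_, ?_, ?_⟩
  · rw [Finsupp.single_apply]
    split_ifs
    · exact zero_le_one
    · exact le_rfl
  · rw [h, Finset.sum_singleton, Finsupp.single_eq_same]
  · rw [h, Finset.coe_singleton]

theorem dst_sum {X I : Type} (s : Finset I) (t : I → ℝ) (f : I → X →₀ ℝ) (S : I → Set X)
    (ht : ∀ i ∈ s, 0 < t i) (h1 : ∑ i ∈ s, t i = 1) (hf : ∀ i ∈ s, Dst (f i) (S i)) :
    Dst (∑ i ∈ s, t i • f i) (⋃ i ∈ s, S i) := by
  obtain ⟨g, hg⟩ : ∃ g : X →₀ ℝ, g = ∑ i ∈ s, t i • f i := ⟨_, rfl⟩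
  rw [← hg]
  have ev : ∀ x, g x = ∑ i ∈ s, t i * f i x := by
    intro x
    rw [hg, Finsupp.finsetSum_apply]
    rfl
  have hsup : (g.support : Set X) = ⋃ i ∈ s, S i := by
    ext x
    rw [Finset.mem_coe, Finsupp.mem_support_iff, ev, Set.mem_iUnion₂]
    constructor
    · intro h
      obtain ⟨i, hi, h2⟩ := Finset.exists_ne_zero_of_sum_ne_zero h
      refine ⟨i, hi, ?_⟩
      rw [← (hf i hi).2.2, Finset.mem_coe, Finsupp.mem_support_iff]
      exact right_ne_zero_of_mul h2
    · rintro ⟨i, hi, h2⟩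
      rw [← (hf i hi).2.2, Finset.mem_coe, Finsupp.mem_support_iff] at h2
      have h3 : 0 < t i * f i x :=
        mul_pos (ht i hi) (lt_of_le_of_ne ((hf i hi).1 x) (Ne.symm h2))
      exact (h3.trans_le (Finset.single_le_sum (f := fun i => t i * f i x)
        (fun j hj => mul_nonneg (ht j hj).le ((hf j hj).1 x)) hi)).ne'
  refine ⟨fun x => ?_, ?_, hsup⟩
  · rw [ev]
    exact Finset.sum_nonneg fun i hi => mul_nonneg (ht i hi).le ((hf i hi).1 x)
  · have key : ∀ i ∈ s, ∑ x ∈ g.support, f i x = 1 := by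
      intro i hi
      rw [← (hf i hi).2.1]
      symm
      refine Finset.sum_subset (fun x hx => ?_) fun x _ hx => Finsupp.notMem_support_iff.1 hx
      rw [← Finset.mem_coe, hsup, Set.mem_iUnion₂]
      refine ⟨i, hi, ?_⟩
      rw [← (hf i hi).2.2]
      exact hx
    rw [Finset.sum_congr rfl fun x _ => ev x, Finset.sum_comm, ← h1]
    refine Finset.sum_congr rfl fun i hi => ?_
    rw [← Finset.mul_sum, key i hi, mul_one]

/-- Coordinates of the elements of the group. -/
noncomputable def crdl (ρ : Wm m →* V) (H : Finset V) (w : Wm m) :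
    {v : V // v ∉ (H : Set V)} →₀ ℝ :=
  if h : ρ w ∉ (H : Set V) then Finsupp.single ⟨ρ w, h⟩ 1 else 0

/-- Coordinates of the vertices of the plane. -/
noncomputable def crd (ρ : Wm m →* V) (H : Finset V) :
    (plane m).V → {v : V // v ∉ (H : Set V)} →₀ ℝ
  | Sum.inl w => crdl ρ H w
  | Sum.inr s => (1 / 4 : ℝ) • ∑ᶠ w ∈ s, crdl ρ H w

variable (ρ : Wm m →* V) (H : Finset V)

/-- The image of a set of elements of the group. -/
def img (S : Set (Wm m)) : Set {v : V // v ∉ (H : Set V)} := {v | ∃ w ∈ S, ρ w = v.1}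

private theorem img_one {w : Wm m} (h : ρ w ∉ (H : Set V)) : img ρ H {w} = {⟨ρ w, h⟩} := by
  ext v
  constructor
  · rintro ⟨x, hx, h1⟩
    rw [Set.mem_singleton_iff] at hx
    rw [hx] at h1
    exact Subtype.ext h1.symm
  · intro hv
    rw [Set.mem_singleton_iff] at hv
    exact ⟨w, rfl, by rw [hv]⟩

private theorem img_union {I : Type} (s : Finset I) (S : I → Set (Wm m)) :
    img ρ H (⋃ i ∈ s, S i) = ⋃ i ∈ s, img ρ H (S i) := by
  ext v
  constructor
  · rintro ⟨w, hw, h1⟩
    obtain ⟨i, hi, h2⟩ := Set.mem_iUnion₂.1 hw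
    exact Set.mem_iUnion₂.2 ⟨i, hi, w, h2, h1⟩
  · intro hv
    obtain ⟨i, hi, w, h2, h1⟩ := Set.mem_iUnion₂.1 hv
    exact ⟨w, Set.mem_iUnion₂.2 ⟨i, hi, h2⟩, h1⟩

private theorem crdl_pos {w : Wm m} (h : ρ w ∉ (H : Set V)) :
    crdl ρ H w = Finsupp.single ⟨ρ w, h⟩ 1 := by
  unfold crdl
  rw [dif_pos h]

theorem dst_crd_inl {w : Wm m} (h : ρ w ∉ H) : Dst (crd ρ H (Sum.inl w)) (img ρ H {w}) := by
  have h' : ρ w ∉ (H : Set V) := h
  rw [img_one ρ H h']
  change Dst (crdl ρ H w) _
  rw [crdl_pos ρ H h']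
  exact dst_single _

theorem dst_crd_inr (hm : 100 ≤ m) {w : Wm m} {i : Lab m} (h : ∀ x ∈ sqv nW w i, ρ x ∉ H) :
    Dst (crd ρ H (Sum.inr (sqv nW w i))) (img ρ H (sqv nW w i)) := by
  have hc := sq_card hm w i
  have hfin : (sqv nW w i).Finite := Set.finite_of_ncard_pos (by rw [hc]; norm_num)
  have hc' : hfin.toFinset.card = 4 := by rw [← Set.ncard_eq_toFinset_card _ hfin, hc]
  have e1 : crd ρ H (Sum.inr (sqv nW w i)) =
      ∑ x ∈ hfin.toFinset, (1 / 4 : ℝ) • crdl ρ H x := by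
    change (1 / 4 : ℝ) • ∑ᶠ x ∈ sqv nW w i, crdl ρ H x = _
    rw [finsum_mem_eq_finite_toFinset_sum _ hfin, Finset.smul_sum]
  have e2 : img ρ H (sqv nW w i) = ⋃ x ∈ hfin.toFinset, img ρ H {x} := by
    rw [← img_union]
    congr 1
    ext x
    simp
  rw [e1, e2]
  refine dst_sum _ _ _ _ (fun _ _ => by norm_num) ?_ fun x hx => ?_
  · rw [Finset.sum_const, hc']
    norm_num
  · exact dst_crd_inl ρ H (h x (hfin.mem_toFinset.1 hx))

theorem dst_pos (hm : 100 ≤ m) {k : ℕ} {p : (Fine m k).V} (hp : Used p)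
    (h : ∀ w ∈ near p, ρ w ∉ H) : Dst ((plane m).pos (crd ρ H) k p) (img ρ H (near p)) := by
  obtain ⟨s, t, h1, h2, h3, h4⟩ := Srf.pos_conv (crd ρ H) k p
  have hn : near p = ⋃ a ∈ s, cor a := by
    ext w
    rw [Set.mem_iUnion₂]
    constructor
    · rintro ⟨a, ha, hw⟩
      rw [← h1] at ha
      exact ⟨a, ha, hw⟩
    · rintro ⟨a, ha, hw⟩
      exact ⟨a, by rw [← h1]; exact ha, hw⟩
  rw [h4, hn, img_union]
  refine dst_sum _ _ _ _ h2 h3 fun a ha => ?_
  have ha' : a ∈ (plane m).car k p := by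
    rw [← h1]
    exact ha
  rcases a with w | q
  · exact dst_crd_inl ρ H (h w ⟨_, ha', rfl⟩)
  · obtain ⟨⟨w, i, rfl⟩, h6⟩ := near_inr hm hp ha'
    exact dst_crd_inr ρ H hm fun x hx => h x (by rw [h6]; exact hx)

private theorem crdl_mul {g : Wm m} (hg : ρ g = 1) (w : Wm m) :
    crdl ρ H (g * w) = crdl ρ H w := by
  have h : ρ (g * w) = ρ w := by rw [map_mul, hg, one_mul]
  unfold crdl
  simp only [h]

theorem crd_trans {g : Wm m} (hg : ρ g = 1) : crd ρ H ∘ trans g = crd ρ H := by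
  funext a
  rcases a with w | s
  · exact crdl_mul ρ H hg w
  · change (1 / 4 : ℝ) • ∑ᶠ x ∈ (fun w => g * w) '' s, crdl ρ H x =
      (1 / 4 : ℝ) • ∑ᶠ x ∈ s, crdl ρ H x
    rw [finsum_mem_image ((mul_right_injective g).injOn)]
    simp only [crdl_mul ρ H hg]

theorem pos_trk {k : ℕ} {g : Wm m} (hg : ρ g = 1) (p : (Fine m k).V) :
    (plane m).pos (crd ρ H) k (trk k g p) = (plane m).pos (crd ρ H) k p := by
  unfold trk
  rw [Srf.mp_pos, crd_trans ρ H hg]

private theorem nrm_crdl (w : Wm m) : UWT.nrm (crdl ρ H w) ≤ 1 / 2 := by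
  by_cases h : ρ w ∉ (H : Set V)
  · rw [crdl_pos ρ H h]
    unfold UWT.nrm
    rw [Finsupp.support_single _ one_ne_zero, Finset.sum_singleton, Finsupp.single_eq_same,
      abs_one]
  · unfold crdl
    rw [dif_neg h, UWT.nrm_zero]
    norm_num

private theorem nrm_sum_le {X I : Type} (s : Finset I) (f : I → X →₀ ℝ) (b : ℝ)
    (h : ∀ i ∈ s, UWT.nrm (f i) ≤ b) : UWT.nrm (∑ i ∈ s, f i) ≤ s.card * b := by
  induction s using Finset.induction_on with
  | empty =>
    rw [Finset.sum_empty, UWT.nrm_zero, Finset.card_empty]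
    simp
  | insert i s hi ih =>
    rw [Finset.sum_insert hi, Finset.card_insert_of_notMem hi]
    have h1 := h i (Finset.mem_insert_self i s)
    have h2 := ih fun j hj => h j (Finset.mem_insert_of_mem hj)
    have h3 := UWT.nrm_add_le (f i) (∑ j ∈ s, f j)
    push_cast
    linarith

private theorem nrm_crd (hm : 100 ≤ m) {x y : (plane m).V} (h : (plane m).Adj x y) :
    UWT.nrm (crd ρ H x) ≤ 1 / 2 := by
  rcases x with w | s
  · exact nrm_crdl ρ H w
  · obtain ⟨w, i, rfl⟩ := adj_inr hm h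
    have hc := sq_card hm w i
    have hfin : (sqv nW w i).Finite := Set.finite_of_ncard_pos (by rw [hc]; norm_num)
    have hc' : hfin.toFinset.card = 4 := by rw [← Set.ncard_eq_toFinset_card _ hfin, hc]
    change UWT.nrm ((1 / 4 : ℝ) • ∑ᶠ x ∈ sqv nW w i, crdl ρ H x) ≤ 1 / 2
    rw [finsum_mem_eq_finite_toFinset_sum _ hfin, UWT.nrm_smul]
    have h1 := nrm_sum_le hfin.toFinset (crdl ρ H) (1 / 2) fun x _ => nrm_crdl ρ H x
    rw [hc'] at h1
    rw [abs_of_pos (by norm_num)]
    push_cast at h1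
    linarith

theorem pos_edge (hm : 100 ≤ m) {k : ℕ} {p q : (Fine m k).V} (h : (Fine m k).Adj p q) :
    UWT.nrm ((plane m).pos (crd ρ H) k p - (plane m).pos (crd ρ H) k q) ≤ 1 / 2 ^ k := by
  obtain ⟨x, y, h1, h2⟩ := Srf.pos_adj (plane_good hm) (crd ρ H) k h
  rw [UWT.nrm_sub_comm, h2, UWT.nrm_smul, abs_of_pos (by positivity)]
  have h3 := nrm_crd ρ H hm h1
  have h4 := nrm_crd ρ H hm ((plane_good hm).adj_symm h1)
  have h5 : UWT.nrm (crd ρ H y - crd ρ H x) ≤ 1 := by
    rw [sub_eq_add_neg]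
    have h6 := UWT.nrm_add_le (crd ρ H y) (-crd ρ H x)
    rw [UWT.nrm_neg] at h6
    linarith
  have h7 : (0 : ℝ) ≤ 1 / 2 ^ k := by positivity
  nlinarith

end URW
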