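import Pool.Agent.URW.B.Min
import Pool.Agent.URW.B.Cone

/-!
# URW B/Deep: the two cones of a minimal chain at a deep vertex

Let `MinCh h₀ h (A ++ ((u ++ [a]) ++ (b :: v)) :: B)`, `x = walk h₀ (A.flatten ++ (u ++ [a]))`,
`K3 ≤ |u ++ [a]|`, `K3 ≤ |b :: v|`.
PROOFS.
* `deep_after`: `cone_after` for the words `b :: v` and `B` (all segments are nice: `seg_nice`,
  suffixes of nice words are nice; `B.length + 1 ≤ K2`, `K3 = K2 + 4`); simplicity is
  `min_simple` (prefixes `p` of `(b :: v) ++ B.flatten` give the prefixes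
  `A.flatten ++ (u ++ [a]) ++ p` of the whole word; `walk_nW`: `walk x p = x * pr p`).
* `deep_before`: the same for the reversed chain (`chn_reverse`, `flatten_reverse'`): the words
  `(u ++ [a]).reverse = a :: u.reverse` and `(A.map reverse).reverse`, read from `x`; a vertex
  `walk h₀ q` with `q` a proper prefix of `A.flatten ++ (u ++ [a]) = q ++ t` is `walk x t.reverse`
  (`walk_reverse`), `t.reverse` is a nonempty prefix of the reversed word.
* `deep_cone`: every vertex `walk h₀ q` of the chain: `q` is a prefix of the first part or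
  `q = A.flatten ++ (u ++ [a]) ++ p`.
-/

set_option autoImplicit false

namespace URW

variable {m : ℕ}

namespace Sys

variable {V : Type} [Group V] (X : Sys m V)

private theorem dp_chn_nice (hm : 3 ≤ m) {c : Wm m → Rot m} {x : Wm m}
    {ds : List (List (Lab m))} (h : Chn nW c x ds) : ∀ d ∈ ds, NiceW d := by
  induction ds generalizing x with
  | nil => intro d hd; simp at hd
  | cons e ds ih =>
    intro d hd
    rcases List.mem_cons.1 hd with h1 | h1
    · rw [h1]
      exact seg_nice hm h.1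
    · exact ih h.2 d h1

private theorem dp_walk (x : Wm m) (l : List (Lab m)) :
    x⁻¹ * walk nW x l = UWW.pr (cm m) l := by
  rw [walk_nW, inv_mul_cancel_left]

private theorem dp_hm (Y : Sys m V) : 100 ≤ m := by
  have := Y.hm
  omega

private theorem dp_flat {A B : List (List (Lab m))} {u v : List (Lab m)} {a b : Lab m} :
    (A ++ ((u ++ [a]) ++ (b :: v)) :: B).flatten =
      (A.flatten ++ (u ++ [a])) ++ ((b :: v) ++ B.flatten) := by
  simp

private theorem dp_data {h₀ h : Wm m} {A B : List (List (Lab m))} {u v : List (Lab m)}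
    {a b : Lab m} (hM : X.MinCh h₀ h (A ++ ((u ++ [a]) ++ (b :: v)) :: B)) :
    (∀ d ∈ A, NiceW d) ∧ (∀ d ∈ B, NiceW d) ∧ NiceW (u ++ [a]) ∧ NiceW (b :: v) ∧
      A.length + 1 + B.length ≤ X.K2 := by
  have hm := X.dp_hm
  obtain ⟨⟨h1, h2, -, -⟩, -⟩ := hM
  obtain ⟨h3, h4, h5⟩ := chn_append.1 h2
  obtain ⟨h6, h7⟩ := seg_append h4
  refine ⟨dp_chn_nice (by omega) h3, dp_chn_nice (by omega) h5, seg_nice (by omega) h6,
    seg_nice (by omega) h7, ?_⟩
  rw [List.length_append, List.length_cons] at h1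
  omega

theorem deep_after {h₀ h x : Wm m} (hne : h₀ ≠ h) {A B : List (List (Lab m))}
    {u v : List (Lab m)} {a b : Lab m}
    (hM : X.MinCh h₀ h (A ++ ((u ++ [a]) ++ (b :: v)) :: B)) (h2 : X.K3 ≤ (b :: v).length)
    (hx : x = walk nW h₀ (A.flatten ++ (u ++ [a]))) {p : List (Lab m)}
    (hp : p <+: (b :: v) ++ B.flatten) (hp0 : p ≠ []) : UWW.Ld (x⁻¹ * walk nW x p) = {b} := by
  obtain ⟨-, hB, -, hn, hl⟩ := X.dp_data hM
  rw [dp_walk]
  have hK : X.K2 + 4 = X.K3 := rfl
  refine cone_after X.dp_hm hB hn (by omega) ?_ hp hp0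
  intro p q hp hq he
  have h3 : walk nW h₀ ((A.flatten ++ (u ++ [a])) ++ p) =
      walk nW h₀ ((A.flatten ++ (u ++ [a])) ++ q) := by
    rw [walk_append nW h₀ (A.flatten ++ (u ++ [a])) p,
      walk_append nW h₀ (A.flatten ++ (u ++ [a])) q, ← hx, walk_nW, walk_nW, he]
  refine List.append_cancel_left (X.min_simple hne hM ?_ ?_ h3)
  · rw [dp_flat]
    exact (List.prefix_append_right_inj _).2 hp
  · rw [dp_flat]
    exact (List.prefix_append_right_inj _).2 hq

theorem deep_before {h₀ h x : Wm m} (hne : h₀ ≠ h) {A B : List (List (Lab m))}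
    {u v : List (Lab m)} {a b : Lab m}
    (hM : X.MinCh h₀ h (A ++ ((u ++ [a]) ++ (b :: v)) :: B)) (h1 : X.K3 ≤ (u ++ [a]).length)
    (hx : x = walk nW h₀ (A.flatten ++ (u ++ [a]))) {q : List (Lab m)}
    (hq : q <+: A.flatten ++ (u ++ [a])) (hq0 : q ≠ A.flatten ++ (u ++ [a])) :
    UWW.Ld (x⁻¹ * walk nW h₀ q) = {a} := by
  obtain ⟨hA, -, hn, -, hl⟩ := X.dp_data hM
  have hK : X.K2 + 4 = X.K3 := rfl
  have e1 : (a :: u.reverse) ++ ((A.map List.reverse).reverse).flatten =
      (A.flatten ++ (u ++ [a])).reverse := by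
    rw [flatten_reverse', List.reverse_append, List.reverse_append]
    rfl
  -- the vertices of the reversed walk
  have e2 : ∀ t r : List (Lab m), r ++ t = A.flatten ++ (u ++ [a]) →
      walk nW x t.reverse = walk nW h₀ r := by
    intro t r hr
    rw [hx, ← hr, walk_append, walk_reverse invol_nW]
  obtain ⟨t, ht⟩ := hq
  have ht0 : t ≠ [] := by
    rintro rfl
    rw [List.append_nil] at ht
    exact hq0 ht
  rw [← e2 t q ht, dp_walk]
  refine cone_after X.dp_hm (B := (A.map List.reverse).reverse) (v := u.reverse) ?_ ?_ ?_ ?_ ?_ ?_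
  · intro d hd
    rw [List.mem_reverse, List.mem_map] at hd
    obtain ⟨e, he, rfl⟩ := hd
    exact niceW_reverse (hA e he)
  · have h3 := niceW_reverse hn
    rwa [List.reverse_append] at h3
  · rw [List.length_append, List.length_singleton] at h1
    rw [List.length_reverse, List.length_map, List.length_cons, List.length_reverse]
    omega
  · intro p q hp hq he
    rw [e1] at hp hq
    obtain ⟨r, hr⟩ := hp
    obtain ⟨r', hr'⟩ := hq
    have h3 : r.reverse ++ p.reverse = A.flatten ++ (u ++ [a]) := by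
      rw [← List.reverse_append, hr, List.reverse_reverse]
    have h4 : r'.reverse ++ q.reverse = A.flatten ++ (u ++ [a]) := by
      rw [← List.reverse_append, hr', List.reverse_reverse]
    have h5 := e2 _ _ h3
    have h6 := e2 _ _ h4
    rw [List.reverse_reverse] at h5 h6
    have h7 : walk nW h₀ r.reverse = walk nW h₀ r'.reverse := by
      rw [← h5, ← h6, walk_nW, walk_nW, he]
    have h8 : r.reverse = r'.reverse := by
      refine X.min_simple hne hM ?_ ?_ h7
      · rw [dp_flat]
        exact List.IsPrefix.trans ⟨p.reverse, h3⟩ (List.prefix_append _ _)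
      · rw [dp_flat]
        exact List.IsPrefix.trans ⟨q.reverse, h4⟩ (List.prefix_append _ _)
    have h9 : r = r' := List.reverse_injective h8
    rw [← h9, ← hr] at hr'
    exact (List.append_cancel_right hr').symm
  · rw [e1, ← ht, List.reverse_append]
    exact List.prefix_append _ _
  · rw [Ne, List.reverse_eq_nil_iff]
    exact ht0

theorem deep_cone {h₀ h x : Wm m} (hne : h₀ ≠ h) {A B : List (List (Lab m))}
    {u v : List (Lab m)} {a b : Lab m}
    (hM : X.MinCh h₀ h (A ++ ((u ++ [a]) ++ (b :: v)) :: B)) (h1 : X.K3 ≤ (u ++ [a]).length)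
    (h2 : X.K3 ≤ (b :: v).length) (hx : x = walk nW h₀ (A.flatten ++ (u ++ [a]))) :
    UWW.Ld (x⁻¹ * h₀) = {a} ∧ UWW.Ld (x⁻¹ * h) = {b} ∧
      ∀ q, q <+: (A ++ ((u ++ [a]) ++ (b :: v)) :: B).flatten → walk nW h₀ q ≠ x →
        UWW.Ld (x⁻¹ * walk nW h₀ q) = {a} ∨ UWW.Ld (x⁻¹ * walk nW h₀ q) = {b} := by
  refine ⟨?_, ?_, ?_⟩
  · refine X.deep_before hne hM h1 hx (q := []) List.nil_prefix ?_
    intro h3
    simp at h3
  · have h3 : walk nW x ((b :: v) ++ B.flatten) = h := by
      rw [hx, ← walk_append nW h₀ (A.flatten ++ (u ++ [a])), ← dp_flat]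
      exact hM.1.2.2.1
    rw [← h3]
    exact X.deep_after hne hM h2 hx (List.prefix_refl _) (by simp)
  · intro q hq hqx
    rw [dp_flat] at hq
    obtain ⟨t, ht⟩ := hq
    rcases List.append_eq_append_iff.1 ht with ⟨r, hr, -⟩ | ⟨r, hr, hr'⟩
    · left
      refine X.deep_before hne hM h1 hx ⟨r, hr.symm⟩ ?_
      rintro rfl
      exact hqx hx.symm
    · right
      have h3 : walk nW h₀ q = walk nW x r := by
        rw [hr, walk_append nW h₀ (A.flatten ++ (u ++ [a])), hx]
      rw [h3]
      refine X.deep_after hne hM h2 hx ⟨t, hr'.symm⟩ ?_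
      rintro rfl
      exact hqx h3

end Sys

end URW
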