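import Pool.Agent.URW.Cox.Main
import Pool.Agent.URW.Srf.Main

/-!
# URW B: chains of line segments, fine vertices, classes, touched holes (definitions)

Sections 3, 4, 5, 8 of `UWneg_proof.txt`.

* `RunFrom nb c x d`: the word `d` is read along a line for the rotation `c` when one starts at `x`
  (`c` for the direction of the line, `rneg ∘ c` for the opposite direction).
* `Chn nb c x ds`: the words `ds` are read successively along lines (in any direction).
* `Con nb c A j a b`: there is a chain of at most `j` segments from `a` to `b` avoiding `A`.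
* `Sys m V`: all data: finite quotient `ρ`, rotation `c`, holes `H`, labels `lab` of the fine vertices.
* `near p`: the elements of `Wm m` which are corners near the fine vertex `p`.
* `Ok p`: used fine vertex with no hole near `p`. `Cls p q`: same class. `Tch p h`: the class of `p`
  touches the hole `h`. `IsBase p h`: `h` is the base hole of the class of `p`.
* `Hch x y ds`: chain of at most `K2` segments from the hole `x` to the hole `y`, other vertices not
  holes; `MinCh`: of minimal length. `Legit h₀ h`: `h` is touched by a class with base hole `h₀ ≠ h`.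
-/

set_option autoImplicit false

namespace URW

variable {m : ℕ} {U : Type}

/-- The opposite rotation. -/
def rneg (c : Rot m) : Rot m := ⟨-c.1, by rw [cd_neg]; exact c.2⟩

/-- The word `d` is a piece of a line starting at `x`. -/
def RunFrom (nb : U → Lab m → U) (c : U → Rot m) : U → List (Lab m) → Prop
  | _, [] => True
  | _, [_] => True
  | x, i :: j :: l => j = i + (c (nb x i)).1 ∧ RunFrom nb c (nb x i) (j :: l)

/-- A piece of a line in one of the two directions. -/
def Seg (nb : U → Lab m → U) (c : U → Rot m) (x : U) (d : List (Lab m)) : Prop :=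
  RunFrom nb c x d ∨ RunFrom nb (fun v => rneg (c v)) x d

/-- A chain of segments. -/
def Chn (nb : U → Lab m → U) (c : U → Rot m) : U → List (List (Lab m)) → Prop
  | _, [] => True
  | x, d :: ds => Seg nb c x d ∧ Chn nb c (walk nb x d) ds

/-- Joined by a chain of at most `j` segments which avoids `A`. -/
def Con (nb : U → Lab m → U) (c : U → Rot m) (A : Set U) (j : ℕ) (a b : U) : Prop :=
  ∃ ds : List (List (Lab m)), ds.length ≤ j ∧ Chn nb c a ds ∧ walk nb a ds.flatten = b ∧
    ∀ p, p <+: ds.flatten → walk nb a p ∉ A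

/-- The angle of `w` seen from `g`. -/
noncomputable def ang (g w : Wm m) : Ang m := th (g⁻¹ * w)

/-- The fine surface. -/
abbrev Fine (m k : ℕ) : Srf := (plane m).it k

/-- The elements of the group near a fine vertex. -/
def near {k : ℕ} (p : (Fine m k).V) : Set (Wm m) := {w | ∃ a ∈ (plane m).car k p, w ∈ cor a}

/-- Fine vertices with a neighbour. -/
def Used {k : ℕ} (p : (Fine m k).V) : Prop := ∃ q, (Fine m k).Adj p q

/-- Translation of fine vertices. -/
def trk (k : ℕ) (g : Wm m) : (Fine m k).V → (Fine m k).V := Srf.mp (plane m) (plane m) (trans g) k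

/-- All data. -/
structure Sys (m : ℕ) (V : Type) [Group V] where
  /-- the finite quotient -/
  ρ : Wm m →* V
  /-- rotations -/
  c : V → Rot m
  /-- holes -/
  H : Finset V
  /-- injectivity radius -/
  n : ℕ
  /-- hole free runs are shorter than `L` -/
  L : ℕ
  /-- the width -/
  K : ℕ
  /-- the level of subdivision -/
  k : ℕ
  /-- the type of labels -/
  T : Type
  /-- the labels of the fine vertices -/
  lab : (Fine m k).V → T
  hm : 1000 * (K + 10) ≤ m
  hk : 1 ≤ k
  surj : Function.Surjective ρ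
  inj : InjN ρ n
  even : ∀ w, ρ w = 1 → Even (UWW.len w)
  big : 1000 * (K + 10) * (L + 1) ≤ n
  sparse : Sparse (nbG ρ) 10 H
  hit : ∀ d : V × Lab m, ∃ j < L, ((nxt (nbG ρ) c)^[j] d).1 ∈ H
  inv : ∀ g, ρ g = 1 → ∀ p, lab (trk k g p) = lab p
  three : ∀ p q r, (Fine m k).T p q r → (∀ w ∈ near p, ρ w ∉ H) → (∀ w ∈ near q, ρ w ∉ H) →
    (∀ w ∈ near r, ρ w ∉ H) → lab p = lab q ∨ lab q = lab r ∨ lab p = lab r
  con : ∀ p q, Used p → Used q → (∀ w ∈ near p, ρ w ∉ H) → (∀ w ∈ near q, ρ w ∉ H) →
    lab p = lab q → ∀ a ∈ near p, ∀ b ∈ near q,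
      Con (nbG ρ) c (H : Set V) (2 * (K + 2)) (ρ a) (ρ b)

namespace Sys

variable {V : Type} [Group V] (X : Sys m V)

/-- Chains inside classes have at most `k1` segments. -/
def k1 : ℕ := 2 * (X.K + 2)

/-- Chains between touched holes have at most `K2` segments. -/
def K2 : ℕ := 2 * (X.K + 2) + 4

/-- Depth. -/
def K3 : ℕ := 2 * (X.K + 2) + 8

/-- The lifted rotations. -/
def cW (w : Wm m) : Rot m := X.c (X.ρ w)

/-- The lifted holes. -/
def HW : Set (Wm m) := {w | X.ρ w ∈ X.H}

/-- Used fine vertices with no hole near. -/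
def Ok (p : (Fine m X.k).V) : Prop := Used p ∧ ∀ w ∈ near p, w ∉ X.HW

/-- The class of `p` contains `q`. -/
def Cls (p q : (Fine m X.k).V) : Prop :=
  X.Ok p ∧ Relation.ReflTransGen
    (fun p q => (Fine m X.k).Adj p q ∧ X.Ok p ∧ X.Ok q ∧ X.lab p = X.lab q) p q

/-- The class of `p` touches the hole `h`. -/
def Tch (p : (Fine m X.k).V) (h : Wm m) : Prop :=
  h ∈ X.HW ∧ ∃ q q', X.Cls p q ∧ (Fine m X.k).Adj q q' ∧ h ∈ near q'

/-- Enumeration of `V`. -/
noncomputable def en [Finite V] (v : V) : ℕ := (Finite.equivFin V v : ℕ)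

/-- `h` is the base hole of the class of `p`. -/
def IsBase [Finite V] (p : (Fine m X.k).V) (h : Wm m) : Prop :=
  X.Tch p h ∧ ∀ h', X.Tch p h' → en (X.ρ h) ≤ en (X.ρ h')

/-- A chain of at most `K2` segments from `x` to `y`, inner vertices are not holes. -/
def Hch (x y : Wm m) (ds : List (List (Lab m))) : Prop :=
  ds.length ≤ X.K2 ∧ Chn nW X.cW x ds ∧ walk nW x ds.flatten = y ∧
    ∀ p, p <+: ds.flatten → p ≠ [] → p ≠ ds.flatten → walk nW x p ∉ X.HW

/-- Of minimal length. -/
def MinCh (x y : Wm m) (ds : List (List (Lab m))) : Prop :=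
  X.Hch x y ds ∧ ∀ ds', X.Hch x y ds' → ds.flatten.length ≤ ds'.flatten.length

/-- `h` is touched by a class with base hole `h₀ ≠ h`. -/
def Legit [Finite V] (h₀ h : Wm m) : Prop := h₀ ≠ h ∧ ∃ p, X.IsBase p h₀ ∧ X.Tch p h

/-- `x` is a deep vertex on the segment number `s` (from `0`) of a minimal chain; the chain arrives
along `a` and leaves along `b`; the segment has the direction of the line iff `fwd`; the segment is
longer than `r + 2 K3`. -/
def Deep [Finite V] (s r : ℕ) (x : Wm m) (a b : Lab m) (fwd : Prop) : Prop :=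
  ∃ (h₀ h : Wm m) (A B : List (List (Lab m))) (u v : List (Lab m)),
    X.Legit h₀ h ∧ X.MinCh h₀ h (A ++ ((u ++ [a]) ++ (b :: v)) :: B) ∧ A.length = s ∧
    X.K3 ≤ (u ++ [a]).length ∧ X.K3 ≤ (b :: v).length ∧
    r + 2 * X.K3 < ((u ++ [a]) ++ (b :: v)).length ∧
    x = walk nW h₀ (A.flatten ++ (u ++ [a])) ∧
    ((fwd ∧ RunFrom nW X.cW (walk nW h₀ A.flatten) ((u ++ [a]) ++ (b :: v))) ∨
      (¬ fwd ∧ RunFrom nW (fun w => rneg (X.cW w)) (walk nW h₀ A.flatten)
        ((u ++ [a]) ++ (b :: v))))

/-- The darts (of the lines, in their direction) of the deep vertices. -/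
def Sdeep [Finite V] (s r : ℕ) : Set (V × Lab m) :=
  {d | ∃ x a b, d.1 = X.ρ x ∧ ((d.2 = b ∧ X.Deep s r x a b True) ∨
    (d.2 = a ∧ X.Deep s r x a b False))}

/-- The vertices on the segments with number `< s` of minimal chains, and the holes. -/
def VS [Finite V] (s : ℕ) : Set V :=
  {v | v ∈ X.H ∨ ∃ (h₀ h : Wm m) (A B : List (List (Lab m))) (u w : List (Lab m)),
    X.Legit h₀ h ∧ X.MinCh h₀ h (A ++ (u ++ w) :: B) ∧ A.length < s ∧
    v = X.ρ (walk nW h₀ (A.flatten ++ u))}

end Sys

end URW
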