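import Pool.Agent.URW.B.Blocks

/-!
# URW B/Labels: a labelling of the block complex gives a system `Sys` (section 3)

PROOF of `exists_sys`. From `HasLabel` get `T`, `lam`, `δ > 0`. Choose `k ≥ 1` with
`1 / 2 ^ k < δ` (`exists_pow_lt_of_lt_one`). A fine vertex `p` is called good if it is used and no
hole is near. For good `p` let `ptp p : Pt (blk ..)` be the point with coordinates
`pos (crd ρ H) k p` (`UWT.mkPt` with `dst_pos` and `face_near'`; the support is nonempty as
`near p` is, `near_nonempty`). The labels are `lab p = some (lam (ptp p))` for good `p` and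
`lab p = none` otherwise (type `Option T`).
* `inv`: `trk k g p` is good iff `p` is good (`near_trk`, `trk_used`, `trk_trk`, `trk_one`;
  `Even (len g)` from the hypothesis on the kernel) and the coordinates agree (`pos_trk`).
* `three`: the vertices of a fine triangle are used and pairwise adjacent (`(plane_good).it`,
  `Good.rot`). For two good adjacent vertices the two points lie in a common face (`face_near` for
  the union of the supports), so `dist = cdist = nrm (difference) ≤ 1 / 2 ^ k < δ`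
  (`UWT.dist_eq_of_adj`, `pos_edge`). So two of the three labels agree. (For `lab p = lab q` from
  `lam = lam` use `congrArg some`.)
* `con`: `lab p = lab q` gives `lam (ptp p) = lam (ptp q)`, so `dist < K`; for `a ∈ near p`,
  `b ∈ near q` the vertices `ρ a`, `ρ b` are in the supports (`dst_pos`), so
  `UWT.near_of_dist_points` gives `Near (K + 2)` and `con_near` the chain of `2 (K + 2)` segments.
The other fields are the hypotheses.
-/

set_option autoImplicit false

namespace URW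

variable {m : ℕ} {V : Type} [Group V]

/-- The point of the block complex with the coordinates of a good fine vertex. -/
private theorem pt_exists (ρ : Wm m →* V) (c : V → Rot m) (H : Finset V) (hm : 100 ≤ m) {k : ℕ}
    {p : (Fine m k).V} (hp : Used p) (h : ∀ w ∈ near p, ρ w ∉ H) :
    ∃ x : UWT.Pt (blk (nbG ρ) c (H : Set V)), x.c = (plane m).pos (crd ρ H) k p ∧
      ∀ v, v ∈ x.c.support ↔ v ∈ img ρ H (near p) := by
  obtain ⟨h1, h2, h3⟩ := dst_pos ρ H hm hp h
  have h4 : ∀ v, v ∈ ((plane m).pos (crd ρ H) k p).support ↔ v ∈ img ρ H (near p) := by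
    intro v
    rw [← h3]
    exact Iff.rfl
  have hne : ((plane m).pos (crd ρ H) k p).support.Nonempty := by
    obtain ⟨w, hw⟩ := near_nonempty hm hp
    exact ⟨⟨ρ w, fun hh => h w hw hh⟩, (h4 _).2 ⟨w, hw, rfl⟩⟩
  have hmem := face_near' ρ c H hm hp h _ hne fun x hx => (h4 x).1 hx
  exact ⟨UWT.mkPt _ hmem h1 h2, UWT.mkPt_c _ hmem h1 h2, fun v => by
    rw [UWT.mkPt_c _ hmem h1 h2]
    exact h4 v⟩

/-- Adjacent good fine vertices give adjacent points. -/
private theorem adj_pts (ρ : Wm m →* V) (c : V → Rot m) (H : Finset V) (hm : 100 ≤ m) {k : ℕ}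
    {p q : (Fine m k).V} (ha : (Fine m k).Adj p q) (hp : ∀ w ∈ near p, ρ w ∉ H)
    (hq : ∀ w ∈ near q, ρ w ∉ H) {x y : UWT.Pt (blk (nbG ρ) c (H : Set V))}
    (hx : ∀ v, v ∈ x.c.support ↔ v ∈ img ρ H (near p))
    (hy : ∀ v, v ∈ y.c.support ↔ v ∈ img ρ H (near q)) : UWT.Adj x y := by
  classical
  refine ⟨x.c.support ∪ y.c.support, ?_, Finset.subset_union_left, Finset.subset_union_right⟩
  refine face_near ρ c H hm ha hp hq _ ?_ ?_
  · obtain ⟨v, hv⟩ := x.exists_mem
    exact ⟨v, Finset.mem_union_left _ hv⟩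
  · intro v hv
    rcases Finset.mem_union.1 hv with hv | hv
    · obtain ⟨w, hw, hw'⟩ := (hx v).1 hv
      exact ⟨w, Or.inl hw, hw'⟩
    · obtain ⟨w, hw, hw'⟩ := (hy v).1 hv
      exact ⟨w, Or.inr hw, hw'⟩

open Classical in
/-- The label of the point with given coordinates. -/
private noncomputable def labC {V' T : Type} {K : UW1.Complex V'} (lam : UWT.Pt K → T)
    (f : V' →₀ ℝ) : Option T :=
  if h : ∃ x : UWT.Pt K, x.c = f then some (lam h.choose) else none

private theorem labC_eq {V' T : Type} {K : UW1.Complex V'} (lam : UWT.Pt K → T)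
    {f : V' →₀ ℝ} {x : UWT.Pt K} (hx : x.c = f) : labC lam f = some (lam x) := by
  have h : ∃ x : UWT.Pt K, x.c = f := ⟨x, hx⟩
  have h1 : h.choose = x := UWT.Pt.ext (h.choose_spec.trans hx.symm)
  unfold labC
  rw [dif_pos h, h1]

/-- Good fine vertices: used, no hole is near. -/
private def Gd (ρ : Wm m →* V) (H : Finset V) {k : ℕ} (p : (Fine m k).V) : Prop :=
  Used p ∧ ∀ w ∈ near p, ρ w ∉ H

private theorem gd_trk (ρ : Wm m →* V) (H : Finset V) (even : ∀ w, ρ w = 1 → Even (UWW.len w))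
    {k : ℕ} {g : Wm m} (hg : ρ g = 1) {p : (Fine m k).V} (h : Gd ρ H p) :
    Gd ρ H (trk k g p) := by
  refine ⟨trk_used (even g hg) h.1, fun w hw => ?_⟩
  rw [near_trk] at hw
  obtain ⟨v, hv, rfl⟩ := hw
  have h1 : ρ (g * v) = ρ v := by rw [map_mul, hg, one_mul]
  show ρ (g * v) ∉ H
  rw [h1]
  exact h.2 v hv

private theorem gd_trk_iff (ρ : Wm m →* V) (H : Finset V)
    (even : ∀ w, ρ w = 1 → Even (UWW.len w)) {k : ℕ} {g : Wm m} (hg : ρ g = 1)
    (p : (Fine m k).V) : Gd ρ H (trk k g p) ↔ Gd ρ H p := by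
  refine ⟨fun h => ?_, gd_trk ρ H even hg⟩
  have h1 : ρ g⁻¹ = 1 := by rw [map_inv, hg, inv_one]
  have h2 := gd_trk ρ H even h1 h
  rwa [trk_trk, inv_mul_cancel, trk_one] at h2

theorem exists_sys (ρ : Wm m →* V) (c : V → Rot m) (H : Finset V) (n L K : ℕ)
    (hm : 1000 * (K + 10) ≤ m) (surj : Function.Surjective ρ) (inj : InjN ρ n)
    (even : ∀ w, ρ w = 1 → Even (UWW.len w)) (big : 1000 * (K + 10) * (L + 1) ≤ n)
    (sparse : Sparse (nbG ρ) 10 H)
    (hit : ∀ d : V × Lab m, ∃ j < L, ((nxt (nbG ρ) c)^[j] d).1 ∈ H)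
    [UWT.Conn (blk (nbG ρ) c (H : Set V))]
    (h : UWT.HasLabel (UWT.Pt (blk (nbG ρ) c (H : Set V))) (K : ℝ)) :
    ∃ X : Sys m V, X.ρ = ρ ∧ X.c = c ∧ X.H = H ∧ X.n = n ∧ X.L = L ∧ X.K = K := by
  classical
  obtain ⟨T, lam, δ, hδ, hlam, hR⟩ := h
  obtain ⟨k, hk⟩ : ∃ k : ℕ, (1 : ℝ) / 2 ^ (k + 1) < δ := by
    obtain ⟨n, hn⟩ := exists_pow_lt_of_lt_one hδ (by norm_num : (1 / 2 : ℝ) < 1)
    refine ⟨n, lt_of_le_of_lt ?_ hn⟩
    rw [one_div_pow]
    exact one_div_le_one_div_of_le (by positivity) (pow_le_pow_right₀ (by norm_num) (by omega))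
  have hm1 : 100 ≤ m := by omega
  have key : ∀ (p q : (Fine m (k + 1)).V) (x y : UWT.Pt (blk (nbG ρ) c (H : Set V))),
      (Fine m (k + 1)).Adj p q → (∀ w ∈ near p, ρ w ∉ H) → (∀ w ∈ near q, ρ w ∉ H) →
      x.c = (plane m).pos (crd ρ H) (k + 1) p → y.c = (plane m).pos (crd ρ H) (k + 1) q →
      (∀ v, v ∈ x.c.support ↔ v ∈ img ρ H (near p)) →
      (∀ v, v ∈ y.c.support ↔ v ∈ img ρ H (near q)) → dist x y < δ := by
    intro p q x y ha hp hq hx hy hx' hy'
    rw [UWT.dist_eq_of_adj (adj_pts ρ c H hm1 ha hp hq hx' hy')]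
    unfold UWT.cdist
    rw [hx, hy]
    exact lt_of_le_of_lt (pos_edge ρ H hm1 ha) hk
  refine ⟨{
    ρ := ρ
    c := c
    H := H
    n := n
    L := L
    K := K
    k := k + 1
    T := Option T
    lab := fun p => if Gd ρ H p then labC lam ((plane m).pos (crd ρ H) (k + 1) p) else none
    hm := hm
    hk := Nat.le_add_left 1 k
    surj := surj
    inj := inj
    even := even
    big := big
    sparse := sparse
    hit := hit
    inv := ?_
    three := ?_
    con := ?_ }, rfl, rfl, rfl, rfl, rfl, rfl⟩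
  · intro g hg p
    rw [pos_trk ρ H hg p]
    exact if_congr (gd_trk_iff ρ H even hg p) rfl rfl
  · intro p q r hT hp hq hr
    have hG := (plane_good hm1).it (k + 1)
    have a1 : (Fine m (k + 1)).Adj p q := ⟨r, hT⟩
    have a2 : (Fine m (k + 1)).Adj q r := ⟨p, hG.rot _ _ _ hT⟩
    have a3 : (Fine m (k + 1)).Adj p r :=
      adj_symm hm1 ⟨q, hG.rot _ _ _ (hG.rot _ _ _ hT)⟩
    have up : Used p := ⟨q, a1⟩
    have uq : Used q := ⟨r, a2⟩
    have ur : Used r := ⟨p, adj_symm hm1 a3⟩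
    obtain ⟨x, x1, x2⟩ := pt_exists ρ c H hm1 up hp
    obtain ⟨y, y1, y2⟩ := pt_exists ρ c H hm1 uq hq
    obtain ⟨z, z1, z2⟩ := pt_exists ρ c H hm1 ur hr
    have lp : Gd ρ H p := ⟨up, hp⟩
    have lq : Gd ρ H q := ⟨uq, hq⟩
    have lr : Gd ρ H r := ⟨ur, hr⟩
    show ((if Gd ρ H p then _ else none) = (if Gd ρ H q then _ else none)) ∨
      ((if Gd ρ H q then _ else none) = (if Gd ρ H r then _ else none)) ∨
      ((if Gd ρ H p then _ else none) = (if Gd ρ H r then _ else none))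
    rw [if_pos lp, if_pos lq, if_pos lr, labC_eq lam x1, labC_eq lam y1, labC_eq lam z1]
    rcases hlam x y z (key p q x y a1 hp hq x1 y1 x2 y2) (key q r y z a2 hq hr y1 z1 y2 z2)
      (key p r x z a3 hp hr x1 z1 x2 z2) with h1 | h1 | h1
    · exact Or.inl (congrArg some h1)
    · exact Or.inr (Or.inl (congrArg some h1))
    · exact Or.inr (Or.inr (congrArg some h1))
  · intro p q up uq hp hq hl a ha b hb
    obtain ⟨x, x1, x2⟩ := pt_exists ρ c H hm1 up hp
    obtain ⟨y, y1, y2⟩ := pt_exists ρ c H hm1 uq hq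
    have lp : Gd ρ H p := ⟨up, hp⟩
    have lq : Gd ρ H q := ⟨uq, hq⟩
    change (if Gd ρ H p then labC lam ((plane m).pos (crd ρ H) (k + 1) p) else none) =
      (if Gd ρ H q then labC lam ((plane m).pos (crd ρ H) (k + 1) q) else none) at hl
    rw [if_pos lp, if_pos lq, labC_eq lam x1, labC_eq lam y1] at hl
    have h1 := hR x y (Option.some_injective _ hl)
    have hv : (⟨ρ a, fun hh => hp a ha hh⟩ : {v : V // v ∉ (H : Set V)}) ∈ x.c.support :=
      (x2 _).2 ⟨a, ha, rfl⟩
    have hw : (⟨ρ b, fun hh => hq b hb hh⟩ : {v : V // v ∉ (H : Set V)}) ∈ y.c.support :=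
      (y2 _).2 ⟨b, hb, rfl⟩
    exact con_near ρ c H surj (K + 2) (UWT.near_of_dist_points h1.le hv hw)

end URW
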