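import Pool.Agent.URW.B.Chain

/-!
# URW B/Lift: projection and lifting of chains, lengths

PROOFS.
* `rho_walk`: `walk_map` for `f = ρ` (`ρ (nW w i) = nbG ρ (ρ w) i` is `map_mul`).
* `con_proj`, `con_lift`: a word is a chain from `a` in `Wm m` iff it is one from `ρ a` in `V`
  (`chn_map`), it avoids `HW = ρ ⁻¹ H` iff its projection avoids `H`. For the lift take the same
  words.
* `seg_len`: a segment in `V` all of whose vertices avoid `H` has less than `L` letters: for a
  forward run `i :: l`, `hit (x, i)` gives `j < L` with `(nxt^[j] (x, i)).1 ∈ H`, and for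
  `j ≤ length` this is `walk x (take j)` (`runFrom_iterate_fst`), which is not in `H`; for a
  backward run use `runFrom_reverse` (the reversed word is a forward run through the same
  vertices).
* `con_len`: so the total length of a chain of `j` segments is at most `j * L`.
* `eq_of_rho`: `ρ (pr l) = 1` for the word `l` from `b` to `b'`, so `pr l = 1` by `inj`, `b = b'`
  (`walk_nW`).
* `con_far`: a chain of total length `≤ j L` from `a` cannot reach `v`
  (`UWW.len (a⁻¹ * v) ≤ j L` otherwise; `UWW.len_pr_le`).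
-/

set_option autoImplicit false

namespace URW

variable {m : ℕ}

namespace Sys

variable {V : Type} [Group V] (X : Sys m V)

theorem rho_walk (a : Wm m) (l : List (Lab m)) :
    X.ρ (walk nW a l) = walk (nbG X.ρ) (X.ρ a) l := by
  exact walk_map X.ρ (fun x i => map_mul X.ρ x (sg i)) a l

theorem invol_nW : Invol (nW (m := m)) := by
  intro v i
  exact UWW.mul_s_mul_s (c := cm m) i v

theorem seg_rho (a : Wm m) (d : List (Lab m)) :
    Seg nW X.cW a d ↔ Seg (nbG X.ρ) X.c (X.ρ a) d := by
  exact seg_map X.ρ (fun x i => map_mul X.ρ x (sg i)) (fun _ => rfl) a d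

theorem chn_rho (a : Wm m) (ds : List (List (Lab m))) :
    Chn nW X.cW a ds ↔ Chn (nbG X.ρ) X.c (X.ρ a) ds := by
  exact chn_map X.ρ (fun x i => map_mul X.ρ x (sg i)) (fun _ => rfl) a ds

theorem con_proj {j : ℕ} {a b : Wm m} (h : Con nW X.cW X.HW j a b) :
    Con (nbG X.ρ) X.c (X.H : Set V) j (X.ρ a) (X.ρ b) := by
  obtain ⟨ds, h1, h2, h3, h4⟩ := h
  refine ⟨ds, h1, (X.chn_rho a ds).1 h2, ?_, fun p hp => ?_⟩
  · rw [← rho_walk, h3]
  · rw [← rho_walk]
    exact h4 p hp

theorem con_lift {j : ℕ} {a : Wm m} {v : V}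
    (h : Con (nbG X.ρ) X.c (X.H : Set V) j (X.ρ a) v) :
    ∃ b, X.ρ b = v ∧ Con nW X.cW X.HW j a b := by
  obtain ⟨ds, h1, h2, h3, h4⟩ := h
  refine ⟨walk nW a ds.flatten, ?_, ds, h1, (X.chn_rho a ds).2 h2, rfl, fun p hp hq => ?_⟩
  · rw [rho_walk, h3]
  · refine h4 p hp ?_
    rw [← rho_walk]
    exact hq

private theorem nxt_rho (j : ℕ) (d : Wm m × Lab m) :
    (X.ρ ((nxt nW X.cW)^[j] d).1, ((nxt nW X.cW)^[j] d).2) =
      (nxt (nbG X.ρ) X.c)^[j] (X.ρ d.1, d.2) := by
  induction j generalizing d with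
  | zero => rfl
  | succ j ih =>
    rw [Function.iterate_succ_apply, Function.iterate_succ_apply, ih]
    have h1 : X.ρ (nW d.1 d.2) = nbG X.ρ (X.ρ d.1) d.2 := map_mul X.ρ d.1 (sg d.2)
    have h2 : (X.ρ (nxt nW X.cW d).1, (nxt nW X.cW d).2) =
        nxt (nbG X.ρ) X.c (X.ρ d.1, d.2) := by
      simp only [nxt, cW, h1]
    rw [h2]

private theorem run_len {a : Wm m} {d : List (Lab m)} (h : RunFrom nW X.cW a d)
    (h' : ∀ p, p <+: d → walk nW a p ∉ X.HW) : d.length < X.L := by
  by_contra hL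
  rw [not_lt] at hL
  rcases d with _ | ⟨i, l⟩
  · obtain ⟨j, hj, -⟩ := X.hit (X.ρ a, 0)
    rw [List.length_nil] at hL
    omega
  · obtain ⟨j, hj, hH⟩ := X.hit (X.ρ a, i)
    have h1 := runFrom_iterate_fst h j (by omega)
    have h2 := congrArg Prod.fst (X.nxt_rho j (a, i))
    simp only at h2
    rw [← h2, h1] at hH
    exact h' _ (List.take_prefix _ _) hH

theorem seg_len {a : Wm m} {d : List (Lab m)} (h : Seg nW X.cW a d)
    (h' : ∀ p, p <+: d → walk nW a p ∉ X.HW) : d.length < X.L := by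
  rcases h with h | h
  · exact X.run_len h h'
  · have h1 := runFrom_reverse invol_nW h
    have h2 : (fun v : Wm m => rneg (rneg (X.cW v))) = X.cW := funext fun v => rneg_rneg _
    rw [h2] at h1
    rw [← List.length_reverse]
    refine X.run_len h1 ?_
    rintro p ⟨r, hr⟩
    have h3 : d = r.reverse ++ p.reverse := by
      rw [← List.reverse_reverse d, ← hr, List.reverse_append]
    have h4 : walk nW (walk nW a d) p = walk nW a r.reverse := by
      conv_lhs => rw [h3, walk_append]
      have := walk_reverse invol_nW (walk nW a r.reverse) p.reverse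
      rw [List.reverse_reverse] at this
      exact this
    rw [h4]
    exact h' _ ⟨p.reverse, h3.symm⟩

theorem chn_len {a : Wm m} {ds : List (List (Lab m))} (h : Chn nW X.cW a ds)
    (h' : ∀ p, p <+: ds.flatten → walk nW a p ∉ X.HW) :
    ds.flatten.length ≤ ds.length * X.L := by
  induction ds generalizing a with
  | nil => simp
  | cons d ds ih =>
    obtain ⟨h1, h2⟩ := h
    rw [List.flatten_cons] at h' ⊢
    have h3 := X.seg_len h1 fun p hp => h' p (hp.trans (List.prefix_append _ _))
    have h4 := ih h2 fun p hp => by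
      rw [← walk_append]
      exact h' _ ((List.prefix_append_right_inj d).2 hp)
    rw [List.length_append, List.length_cons, add_mul, one_mul]
    omega

theorem con_len {j : ℕ} {a b : Wm m} (h : Con nW X.cW X.HW j a b) :
    ∃ l : List (Lab m), l.length ≤ j * X.L ∧ walk nW a l = b := by
  obtain ⟨ds, h1, h2, h3, h4⟩ := h
  exact ⟨ds.flatten, (X.chn_len h2 h4).trans (Nat.mul_le_mul_right _ h1), h3⟩

theorem eq_of_rho {b b' : Wm m} {l : List (Lab m)} (h : X.ρ b = X.ρ b') (hl : walk nW b l = b')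
    (hn : l.length ≤ X.n) : b = b' := by
  rw [walk_nW] at hl
  rw [← hl, map_mul] at h
  have h1 : X.ρ (UWW.pr (cm m) l) = 1 := by
    have := h.symm
    rwa [mul_eq_left] at this
  rw [← hl, X.inj l hn h1, mul_one]

theorem con_far {j : ℕ} {a b v : Wm m} (h : Con nW X.cW X.HW j a b)
    (hv : j * X.L < UWW.len (v⁻¹ * a)) : Con nW X.cW (X.HW ∪ {v}) j a b := by
  obtain ⟨ds, h1, h2, h3, h4⟩ := h
  refine ⟨ds, h1, h2, h3, fun p hp hq => ?_⟩
  rcases hq with hq | hq
  · exact h4 p hp hq
  · have h5 : a * UWW.pr (cm m) p = v := by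
      rw [← walk_nW]
      exact hq
    have h6 : v⁻¹ * a = (UWW.pr (cm m) p)⁻¹ := by
      rw [← h5, mul_inv_rev, mul_assoc, inv_mul_cancel, mul_one]
    rw [h6, UWW.len_inv] at hv
    have h7 := UWW.len_pr_le (c := cm m) p
    have h8 := hp.length_le
    have h9 := (X.chn_len h2 h4).trans (Nat.mul_le_mul_right _ h1)
    omega

/-- Every vertex of the group is reached. -/
theorem exists_walk (a b : Wm m) : ∃ l : List (Lab m), walk nW a l = b ∧
    l.length = UWW.len (a⁻¹ * b) := by
  obtain ⟨l, hl, he⟩ := UWW.exists_red (c := cm m) (a⁻¹ * b)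
  refine ⟨l, ?_, ?_⟩
  · rw [walk_nW, he, mul_inv_cancel_left]
  · rw [← he, UWW.len_pr hl]

end Sys

end URW
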