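import Pool.Agent.URW.B.Tch

/-!
# URW B/Min: chains of minimal length between holes are simple paths

PROOFS.
* `min_exists`: `Nat.find` for the lengths.
* `walk_mul`: `walk nW (g * x) l = g * walk nW x l` (induction).
* `hch_trk`, `min_trk`: for `ρ g = 1`: `cW (g w) = cW w`, `g w ∈ HW ↔ w ∈ HW`, so the same words are
  chains between the translates (`chn_map` for the map `w ↦ g w`, and its inverse for `min_trk`).
* `min_simple`: put `D = ds.flatten`. Suppose `p ≠ q` are prefixes of `D`, `p` shorter,
  `walk x p = walk x q`, `D = q ++ t`. We construct a chain `ds'` from `x` to `y` with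
  `ds'.flatten = p ++ t` (shorter), a contradiction. Since `q ≠ []`, `flatten_prefix` gives
  `ds = A ++ (u ++ w) :: B`, `q = A.flatten ++ u`, `u ≠ []`, so `t = w ++ B.flatten`. If `p = []`
  put `ds' = w :: B` (`x = walk x q` is its starting point; it is a chain by `seg_append`,
  `chn_append`). If `p ≠ []`, `ds = A₁ ++ (u₁ ++ w₁) :: B₁`, `p = A₁.flatten ++ u₁`, `u₁ ≠ []`.
  Comparing lengths, `A₁.length ≤ A.length` (if `A.length < A₁.length`, then `A` with its next
  element is a prefix of `A₁`, so `q` would be a prefix of `A₁.flatten`, shorter than `p`). If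
  `A₁.length = A.length` then `A₁ = A` and `u₁`, `u` are prefixes of the same nice word with
  `walk (walk x A.flatten) u₁ = walk (walk x A.flatten) u`, so `u₁ = u` by `nice_inj`
  (`walk_nW`, `seg_nice`; prefixes of nice words are nice), contradiction. Otherwise put
  `ds' = A₁ ++ u₁ :: w :: B`, of length `A₁.length + 2 + B.length ≤ ds.length`. In all cases
  `Hch x y ds'`: a prefix of `p ++ t` is a prefix of `p` or `p ++ t₁`, `t₁ <+: t`, and
  `walk x (p ++ t₁) = walk x (q ++ t₁)`; so inner vertices of the new chain are inner vertices of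
the
  old one. (If `q = D` and `p = []` then `x = y`, excluded.)
* `min_simple'`: the same in terms of the list of vertices `scanl`: the elements of
  `List.scanl nW x D` are `walk nW x (D.take j)`, `j ≤ D.length`, in this order.
-/

set_option autoImplicit false
set_option linter.unusedVariables false

namespace URW

variable {m : ℕ}

theorem walk_mul (g x : Wm m) (l : List (Lab m)) : walk nW (g * x) l = g * walk nW x l := by
  rw [walk_nW, walk_nW, mul_assoc]

namespace Sys

variable {V : Type} [Group V] (X : Sys m V)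

theorem min_exists {x y : Wm m} {ds : List (List (Lab m))} (h : X.Hch x y ds) :
    ∃ ds', X.MinCh x y ds' := by
  classical
  have hex : ∃ t, ∃ ds', X.Hch x y ds' ∧ ds'.flatten.length = t := ⟨_, ds, h, rfl⟩
  obtain ⟨ds₀, h1, h2⟩ := Nat.find_spec hex
  refine ⟨ds₀, h1, fun ds' h' => ?_⟩
  rw [h2]
  exact Nat.find_min' hex ⟨ds', h', rfl⟩

theorem hch_trk {g : Wm m} (hg : X.ρ g = 1) {x y : Wm m} {ds : List (List (Lab m))} :
    X.Hch (g * x) (g * y) ds ↔ X.Hch x y ds := by
  have h1 := chn_map (nb := nW) (nb' := nW) (c := X.cW) (c' := X.cW) (fun w : Wm m => g * w)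
    (fun x i => (mul_assoc g x (sg i)).symm)
    (fun x => by
      change X.c (X.ρ x) = X.c (X.ρ (g * x))
      rw [map_mul, hg, one_mul]) x ds
  have h2 : ∀ w : Wm m, g * w ∈ X.HW ↔ w ∈ X.HW := fun w => by
    change X.ρ (g * w) ∈ X.H ↔ X.ρ w ∈ X.H
    rw [map_mul, hg, one_mul]
  unfold Hch
  rw [← h1]
  simp only [walk_mul, h2, mul_right_inj]

theorem min_trk {g : Wm m} (hg : X.ρ g = 1) {x y : Wm m} {ds : List (List (Lab m))}
    (h : X.MinCh x y ds) : X.MinCh (g * x) (g * y) ds := by
  exact ⟨(X.hch_trk hg).2 h.1, fun ds' h' => h.2 ds' ((X.hch_trk hg).1 h')⟩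

/-- The shortcut. -/
private theorem min_cut {x y : Wm m} {ds ds' : List (List (Lab m))} (h : X.MinCh x y ds)
    {p q t : List (Lab m)} (hpq : p <+: q) (hlt : p.length < q.length) (ht : q ++ t = ds.flatten)
    (he : walk nW x p = walk nW x q) (h1 : ds'.length ≤ ds.length) (h2 : Chn nW X.cW x ds')
    (h3 : ds'.flatten = p ++ t) : False := by
  have hH : X.Hch x y ds' := by
    refine ⟨h1.trans h.1.1, h2, ?_, ?_⟩
    · rw [h3, walk_append, he, ← walk_append, ht]
      exact h.1.2.2.1
    · intro r hr hr0 hr1
      rw [h3] at hr hr1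
      obtain ⟨z, hz⟩ := hr
      rcases List.append_eq_append_iff.1 hz with ⟨u, hu, -⟩ | ⟨u, hu, hu'⟩
      · have h4 : r <+: p := ⟨u, hu.symm⟩
        refine h.1.2.2.2 r ?_ hr0 fun h5 => ?_
        · exact h4.trans (hpq.trans ⟨t, ht⟩)
        · have h6 := h4.length_le
          rw [h5, ← ht, List.length_append] at h6
          omega
      · rw [hu, walk_append, he, ← walk_append]
        refine h.1.2.2.2 (q ++ u) ?_ ?_ ?_
        · refine ⟨z, ?_⟩
          rw [List.append_assoc, ← hu', ht]
        · intro h5
          have h6 := congrArg List.length h5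
          rw [List.length_append, List.length_nil] at h6
          omega
        · intro h5
          rw [← ht] at h5
          apply hr1
          rw [hu, List.append_cancel_left h5]
  have h4 := h.2 ds' hH
  rw [h3, ← ht, List.length_append, List.length_append] at h4
  omega

private theorem min_lt {x y : Wm m} {ds : List (List (Lab m))} (h : X.MinCh x y ds)
    {p q : List (Lab m)} (hp : p <+: ds.flatten) (hq : q <+: ds.flatten)
    (he : walk nW x p = walk nW x q) (hlt : p.length < q.length) : False := by
  have hm := X.hm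
  have hpq : p <+: q := List.prefix_of_prefix_length_le hp hq hlt.le
  rcases flatten_prefix ds q hq with rfl | ⟨A, B, u, w, h1, h2, -⟩
  · simp at hlt
  have hc := h.1.2.1
  rw [h1, chn_append] at hc
  obtain ⟨hc1, hc2, hc3⟩ := hc
  obtain ⟨hs1, hs2⟩ := seg_append hc2
  have e1 : walk nW (walk nW x A.flatten) u = walk nW x q := by
    rw [h2, walk_append]
  rw [walk_append] at hc3
  rw [e1] at hs2 hc3
  have ht : q ++ (w ++ B.flatten) = ds.flatten := by
    rw [h1, h2]
    simp
  have hlen : ds.length = A.length + 1 + B.length := by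
    rw [h1, List.length_append, List.length_cons]
    omega
  have hA : Chn nW X.cW x (A ++ [u]) := chn_append.2 ⟨hc1, hs1, trivial⟩
  have hfl : (A ++ [u]).flatten = q := by
    rw [h2]
    simp
  rcases flatten_prefix (A ++ [u]) p (hfl ▸ hpq) with rfl | ⟨A₁, B₁, u₁, w₁, h3, h4, -⟩
  · refine X.min_cut h hpq hlt ht he (ds' := w :: B) ?_ ?_ rfl
    · rw [List.length_cons]
      omega
    · rw [walk_nil] at he
      rw [← he] at hs2 hc3
      exact ⟨hs2, hc3⟩
  · rw [h3, chn_append] at hA
    obtain ⟨hA1, hA2, -⟩ := hA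
    have hs3 := (seg_append hA2).1
    have e2 : walk nW (walk nW x A₁.flatten) u₁ = walk nW x q := by
      rw [← walk_append, ← h4, he]
    rcases List.eq_nil_or_concat B₁ with rfl | ⟨B₂, b, rfl⟩
    · obtain ⟨h5, h6⟩ := List.append_inj' h3 rfl
      rw [List.cons.injEq] at h6
      obtain ⟨h6, -⟩ := h6
      subst h5
      have h7 : UWW.pr (cm m) u₁ = UWW.pr (cm m) u := by
        rw [← e1, walk_nW _ u₁, walk_nW _ u] at e2
        exact mul_left_cancel e2
      have h8 := nice_inj (by omega) (seg_nice (by omega) hs3) (seg_nice (by omega) hs1) h7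
      rw [h4, h2, h8] at hlt
      exact lt_irrefl _ hlt
    · refine X.min_cut h hpq hlt ht he (ds' := A₁ ++ u₁ :: w :: B) ?_ ?_ ?_
      · have h5 := congrArg List.length h3
        simp only [List.length_append, List.length_cons, List.length_nil,
          List.length_concat] at h5 ⊢
        omega
      · rw [chn_append]
        refine ⟨hA1, hs3, ?_⟩
        rw [e2]
        exact ⟨hs2, hc3⟩
      · rw [h4]
        simp

theorem min_simple {x y : Wm m} (hxy : x ≠ y) {ds : List (List (Lab m))} (h : X.MinCh x y ds)
    {p q : List (Lab m)} (hp : p <+: ds.flatten) (hq : q <+: ds.flatten)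
    (he : walk nW x p = walk nW x q) : p = q := by
  rcases lt_trichotomy p.length q.length with hlt | heq | hlt
  · exact (X.min_lt h hp hq he hlt).elim
  · exact (List.prefix_of_prefix_length_le hp hq heq.le).eq_of_length heq
  · exact (X.min_lt h hq hp he.symm hlt).elim

theorem mem_scanl {x z : Wm m} {D : List (Lab m)} :
    z ∈ List.scanl nW x D ↔ ∃ p, p <+: D ∧ z = walk nW x p := by
  induction D generalizing x with
  | nil =>
    rw [List.scanl_nil, List.mem_singleton]
    constructor
    · rintro rfl
      exact ⟨[], List.nil_prefix, rfl⟩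
    · rintro ⟨p, hp, rfl⟩
      rw [List.prefix_nil] at hp
      rw [hp, walk_nil]
  | cons i D ih =>
    rw [List.scanl_cons, List.mem_cons, ih]
    constructor
    · rintro (rfl | ⟨p, hp, rfl⟩)
      · exact ⟨[], List.nil_prefix, rfl⟩
      · exact ⟨i :: p, List.cons_prefix_cons.2 ⟨rfl, hp⟩, rfl⟩
    · rintro ⟨p, hp, rfl⟩
      cases p with
      | nil => exact Or.inl rfl
      | cons j p =>
        obtain ⟨rfl, hp'⟩ := List.cons_prefix_cons.1 hp
        exact Or.inr ⟨p, hp', rfl⟩

private theorem nodup_scanl {x : Wm m} {D : List (Lab m)}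
    (h : ∀ p q, p <+: D → q <+: D → walk nW x p = walk nW x q → p = q) :
    (List.scanl nW x D).Nodup := by
  induction D generalizing x with
  | nil =>
    rw [List.scanl_nil]
    exact List.nodup_singleton x
  | cons i D ih =>
    rw [List.scanl_cons, List.nodup_cons]
    constructor
    · intro hx
      obtain ⟨p, hp, h1⟩ := mem_scanl.1 hx
      have h2 := h [] (i :: p) List.nil_prefix (List.cons_prefix_cons.2 ⟨rfl, hp⟩) h1
      exact absurd h2 (by simp)
    · refine ih fun p q hp hq h1 => ?_
      have h2 := h (i :: p) (i :: q) (List.cons_prefix_cons.2 ⟨rfl, hp⟩)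
        (List.cons_prefix_cons.2 ⟨rfl, hq⟩) h1
      exact (List.cons.inj h2).2

theorem min_simple' {x y : Wm m} (hxy : x ≠ y) {ds : List (List (Lab m))}
    (h : X.MinCh x y ds) : (List.scanl nW x ds.flatten).Nodup := by
  exact nodup_scanl fun p q hp hq h1 => X.min_simple hxy h hp hq h1

end Sys

end URW
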