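import Pool.Agent.URW.B.Lift

/-!
# URW B/Near: the corners near a fine vertex, stars, translations

PROOFS. `near p` is the union of the `cor a`, `a ∈ car p`.
* `near_tri`: `Srf.car_tri` gives a coarse triangle `T a b c` containing the carriers, `T_cor`.
* `near_adj`: an edge lies in a triangle (`Adj p q` is `∃ r, T p q r`).
* `near_nonempty`: `car_nonempty`; `cor (inl w) = {w}`; if `inr s ∈ car p`, then `car p` is
  contained in a coarse triangle (`p` is used, `car_tri`), whose vertices have neighbours (`T` is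
  invariant under rotation), so `s = sqv nW w i ∋ w` (`adj_inr`).
* `near_inr`: if `inr s ∈ car p`, `p` used, then `s = sqv nW w i` and all corners are near `p`, and
  `near p ⊆ s`: the carrier is in a triangle `{inl w, inl (w s_i), inr s}` up to rotation; by
  `T_cor`-like argument: `T0` shows that `w, w s_i ∈ s`; or use `T_cor`: the three corner sets are in
  one square `sqv nW w' i'` and `s` has `4` elements (`sq_card`), so `s` is this square.
* `near_cases`: if no `inr s` is in the carrier then `car p ⊆ {inl w, inl (w * sg i)}` (the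
  triangle has only two vertices in the group).
* `near_io`: `car_io`. `near_eq_single`: if `near p = {w}` then `car p = {inl w}` (`near_inr`
  excludes squares as they have four corners), `car_single`.
* `star_path`: if `inl h ∈ car p` use `Srf.star_conn`. If `inr s ∈ car p`, `h ∈ s`: `star_conn`
  gives a walk from `p` to `io (inr s)` all of whose vertices have `inr s` in the carrier; continue
  with the subdivision `sdk k [inr s, inl h]` of the edge (`adj_centre`): its vertices have carrier
  `{inr s}`, `{inl h}` or `{inr s, inl h}` (`mem_sdk`). All have `h` near.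
* `near_trk`: `mp_car`; `cor (trans g a) = (g * ·) '' cor a`.
* `trk_T`: `mp_T` and `trans_T` (`ρ g = 1` implies that `len g` is even). `trk_trk`: `mp_comp`,
  `trans g ∘ trans g' = trans (g * g')`. `trk_one`: `mp_id`. `trk_io`: `mp_io`.
-/

set_option autoImplicit false

namespace URW

variable {m k : ℕ}

theorem adj_symm (hm : 100 ≤ m) {p q : (Fine m k).V} (h : (Fine m k).Adj p q) :
    (Fine m k).Adj q p :=
  ((plane_good hm).it k).adj_symm h

/-- The elements near a fine vertex are corners of members of the carrier. -/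
private theorem near_sub {p : (Fine m k).V} {A : Set (plane m).V} {s : Set (Wm m)}
    (h : (plane m).car k p ⊆ A) (hA : ∀ a ∈ A, cor a ⊆ s) : near p ⊆ s := by
  rintro w ⟨a, ha, hw⟩
  exact hA a (h ha) hw

theorem near_tri (hm : 100 ≤ m) {p q r : (Fine m k).V} (h : (Fine m k).T p q r) :
    ∃ w i, near p ∪ near q ∪ near r ⊆ sqv nW w i := by
  obtain ⟨x, y, z, hT, hc⟩ := Srf.car_tri (plane_good hm) k h
  obtain ⟨w, i, hw⟩ := T_cor hT
  have hA : ∀ a ∈ ({x, y, z} : Set (plane m).V), cor a ⊆ sqv nW w i := by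
    rintro a (rfl | rfl | rfl)
    · exact fun v hv => hw (Or.inl (Or.inl hv))
    · exact fun v hv => hw (Or.inl (Or.inr hv))
    · exact fun v hv => hw (Or.inr hv)
  refine ⟨w, i, Set.union_subset (Set.union_subset (near_sub ?_ hA) (near_sub ?_ hA))
    (near_sub ?_ hA)⟩
  · exact fun a ha => hc (Or.inl (Or.inl ha))
  · exact fun a ha => hc (Or.inl (Or.inr ha))
  · exact fun a ha => hc (Or.inr ha)

theorem near_adj (hm : 100 ≤ m) {p q : (Fine m k).V} (h : (Fine m k).Adj p q) :
    ∃ w i, near p ∪ near q ⊆ sqv nW w i := by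
  obtain ⟨r, hr⟩ := h
  obtain ⟨w, i, hw⟩ := near_tri hm hr
  exact ⟨w, i, fun v hv => hw (Or.inl hv)⟩

theorem used_of_adj (hm : 100 ≤ m) {p q : (Fine m k).V} (h : (Fine m k).Adj p q) :
    Used p ∧ Used q := ⟨⟨q, h⟩, ⟨p, adj_symm hm h⟩⟩

/-- The carriers of a fine edge in a coarse triangle which starts with a given member. -/
private theorem edge_car (hm : 100 ≤ m) {p q : (Fine m k).V} (h : (Fine m k).Adj p q) :
    ∃ s y z, (plane m).T (Sum.inr s) y z ∧
      (plane m).car k p ∪ (plane m).car k q ⊆ {Sum.inr s, y, z} := by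
  obtain ⟨r, hr⟩ := h
  obtain ⟨x, y, z, hT, hc⟩ := Srf.car_tri (plane_good hm) k hr
  have hc' : (plane m).car k p ∪ (plane m).car k q ⊆ {x, y, z} := fun a ha => hc (Or.inl ha)
  obtain ⟨s, rfl | rfl | rfl⟩ := T_not_inl hT
  · exact ⟨s, y, z, hT, hc'⟩
  · refine ⟨s, z, x, good_rot hT, fun a ha => ?_⟩
    rcases hc' ha with h1 | h1 | h1
    · exact Or.inr (Or.inr h1)
    · exact Or.inl h1
    · exact Or.inr (Or.inl h1)
  · refine ⟨s, x, y, good_rot (good_rot hT), fun a ha => ?_⟩
    rcases hc' ha with h1 | h1 | h1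
    · exact Or.inr (Or.inl h1)
    · exact Or.inr (Or.inr h1)
    · exact Or.inl h1

/-- The triangle at a centre. -/
private theorem centre_tri {s : Set (Wm m)} {y z : (plane m).V}
    (h : (plane m).T (Sum.inr s) y z) : ∃ w i, y = Sum.inl w ∧ z = Sum.inl (w * sg i) ∧
      (∃ j, s = sqv nW w j) ∧ w ∈ s ∧ w * sg i ∈ s := by
  obtain ⟨w, i, h1, h2, h3⟩ := (T_inr s y z).1 h
  refine ⟨w, i, h1, h2, ⟨_, h3⟩, ?_, ?_⟩
  · rw [h3, sqv_eq]
    exact Or.inl rfl
  · rw [h3, sqv_eq]
    split_ifs
    · exact Or.inr (Or.inl rfl)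
    · rw [sub_add_cancel]
      exact Or.inr (Or.inr (Or.inl rfl))

/-- All corners of the triangle at a centre. -/
private theorem centre_cor {s : Set (Wm m)} {y z : (plane m).V}
    (h : (plane m).T (Sum.inr s) y z) :
    ∀ a ∈ ({Sum.inr s, y, z} : Set (plane m).V), cor a ⊆ s := by
  obtain ⟨w, i, rfl, rfl, -, h1, h2⟩ := centre_tri h
  rintro a (rfl | rfl | rfl)
  · exact subset_rfl
  · exact Set.singleton_subset_iff.2 h1
  · exact Set.singleton_subset_iff.2 h2

theorem near_nonempty (hm : 100 ≤ m) {p : (Fine m k).V} (h : Used p) : (near p).Nonempty := by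
  obtain ⟨q, hq⟩ := h
  obtain ⟨s, y, z, hT, hc⟩ := edge_car hm hq
  obtain ⟨w, i, rfl, rfl, -, h1, h2⟩ := centre_tri hT
  obtain ⟨a, ha⟩ := Srf.car_nonempty k p
  rcases hc (Or.inl ha) with rfl | rfl | rfl
  · exact ⟨w, _, ha, h1⟩
  · exact ⟨w, _, ha, rfl⟩
  · exact ⟨w * sg i, _, ha, rfl⟩

theorem near_inr (hm : 100 ≤ m) {p : (Fine m k).V} (h : Used p) {s : Set (Wm m)}
    (hs : Sum.inr s ∈ (plane m).car k p) : (∃ w i, s = sqv nW w i) ∧ near p = s := by
  obtain ⟨q, hq⟩ := h
  obtain ⟨s', y, z, hT, hc⟩ := edge_car hm hq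
  obtain ⟨w, i, h1, h2, ⟨j, h3⟩, -, -⟩ := centre_tri hT
  have e : s = s' := by
    rcases hc (Or.inl hs) with h4 | h4 | h4
    · exact Sum.inr_injective h4
    · rw [h1] at h4
      exact absurd h4 Sum.inr_ne_inl
    · rw [h2] at h4
      exact absurd h4 Sum.inr_ne_inl
  subst e
  refine ⟨⟨w, j, h3⟩, Set.Subset.antisymm ?_ fun v hv => ⟨_, hs, hv⟩⟩
  exact near_sub (fun a ha => hc (Or.inl ha)) (centre_cor hT)

theorem near_cases (hm : 100 ≤ m) {p q : (Fine m k).V} (h : (Fine m k).Adj p q) :
    (∃ s, Sum.inr s ∈ (plane m).car k p ∪ (plane m).car k q ∧ (∃ w i, s = sqv nW w i) ∧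
      near p ∪ near q ⊆ s) ∨
    ∃ w i, (plane m).car k p ∪ (plane m).car k q ⊆ {Sum.inl w, Sum.inl (w * sg i)} := by
  obtain ⟨s, y, z, hT, hc⟩ := edge_car hm h
  obtain ⟨w, i, h1, h2, ⟨j, h3⟩, -, -⟩ := centre_tri hT
  by_cases hs : Sum.inr s ∈ (plane m).car k p ∪ (plane m).car k q
  · refine Or.inl ⟨s, hs, ⟨w, j, h3⟩, Set.union_subset ?_ ?_⟩
    · exact near_sub (fun a ha => hc (Or.inl ha)) (centre_cor hT)
    · exact near_sub (fun a ha => hc (Or.inr ha)) (centre_cor hT)
  · refine Or.inr ⟨w, i, fun a ha => ?_⟩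
    rcases hc ha with h4 | h4 | h4
    · exact absurd (h4 ▸ ha) hs
    · exact Or.inl (h4.trans h1)
    · exact Or.inr (h4.trans h2)

theorem near_io (w : Wm m) : near ((plane m).io k (Sum.inl w)) = {w} := by
  ext v
  constructor
  · rintro ⟨a, ha, hv⟩
    rw [Srf.car_io] at ha
    rw [show a = Sum.inl w from ha] at hv
    exact hv
  · intro hv
    refine ⟨Sum.inl w, ?_, hv⟩
    rw [Srf.car_io]
    exact Set.mem_singleton _

theorem used_io (hm : 100 ≤ m) (w : Wm m) : Used ((plane m).io k (Sum.inl w)) := by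
  obtain ⟨z, hz⟩ := adj_edge hm w 0
  exact ⟨_, _, (Srf.link_io (plane_good hm) k (Sum.inl w) _ _).2 ⟨_, _, hz, rfl, rfl⟩⟩

theorem near_eq_single (hm : 100 ≤ m) {p : (Fine m k).V} (h : Used p) {w : Wm m}
    (hw : near p = {w}) : p = (plane m).io k (Sum.inl w) := by
  apply Srf.car_single
  refine Set.eq_singleton_iff_nonempty_unique_mem.2 ⟨Srf.car_nonempty k p, fun a ha => ?_⟩
  rcases a with v | s
  · have h1 : v ∈ near p := ⟨Sum.inl v, ha, rfl⟩
    rw [hw] at h1
    rw [show v = w from h1]
  · obtain ⟨⟨v, i, h1⟩, h2⟩ := near_inr hm h ha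
    have h3 := sq_card hm v i
    rw [← h1, ← h2, hw, Set.ncard_singleton] at h3
    exact absurd h3 (by norm_num)

/-- Stars are connected. -/
theorem star_path (hm : 100 ≤ m) {p : (Fine m k).V} (hp : Used p) {h : Wm m} (hh : h ∈ near p) :
    ∃ l : List (Fine m k).V, (Fine m k).Wlk (p :: l) ∧
      (p :: l).getLast? = some ((plane m).io k (Sum.inl h)) ∧ ∀ q ∈ p :: l, h ∈ near q := by
  obtain ⟨a, ha, hha⟩ := hh
  obtain ⟨l, h1, h2, h3⟩ := Srf.star_conn (plane_good hm) k a p hp ha
  rcases a with w | s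
  · have e : h = w := hha
    subst e
    exact ⟨l, h1, h2, fun q hq => ⟨_, h3 q hq, rfl⟩⟩
  · obtain ⟨⟨w, i, hs⟩, -⟩ := near_inr hm hp ha
    have hhs : h ∈ s := hha
    have hadj : (plane m).Adj (Sum.inr s) (Sum.inl h) := by
      have h4 : h ∈ sqv nW w i := hs ▸ hhs
      rw [hs]
      exact (adj_centre hm h4).2
    have w1 : (Fine m k).Wlk ((plane m).sdk k [Sum.inr s, Sum.inl h]) :=
      Srf.wlk_sdk (plane_good hm) k
        (List.isChain_cons_cons.2 ⟨hadj, List.isChain_singleton _⟩)
    have w2 := Srf.head_sdk (S := plane m) k [Sum.inr s, Sum.inl h]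
    have w3 := Srf.last_sdk (S := plane m) k [Sum.inr s, Sum.inl h]
    have w4 : ∀ q ∈ (plane m).sdk k [Sum.inr s, Sum.inl h], h ∈ near q := by
      intro q hq
      rcases Srf.mem_sdk k hq with ⟨x, hx, hc⟩ | ⟨A, x, y, B, hl, hc⟩
      · refine ⟨x, by rw [hc]; rfl, ?_⟩
        rcases List.mem_cons.1 hx with rfl | hx
        · exact hhs
        · rw [List.mem_singleton.1 hx]
          rfl
      · have hy : x ∈ A ++ x :: y :: B := by simp
        rw [← hl] at hy
        refine ⟨x, by rw [hc]; exact Or.inl rfl, ?_⟩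
        rcases List.mem_cons.1 hy with rfl | hx
        · exact hhs
        · rw [List.mem_singleton.1 hx]
          rfl
    rcases hsd : (plane m).sdk k [Sum.inr s, Sum.inl h] with _ | ⟨b, t⟩
    · rw [hsd] at w2
      exact absurd w2 (by simp)
    · rw [hsd] at w1 w2 w3 w4
      have hb : b = (plane m).io k (Sum.inr s) := by simpa using w2
      subst hb
      refine ⟨l ++ t, ?_, ?_, ?_⟩
      · change List.IsChain _ ((p :: l) ++ t)
        refine List.isChain_append.2 ⟨h1, ?_, ?_⟩
        · exact List.IsChain.of_cons w1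
        · intro x hx y hy
          rw [h2] at hx
          have hx' : (plane m).io k (Sum.inr s) = x := by simpa using hx
          subst hx'
          rcases t with _ | ⟨c, t⟩
          · exact absurd hy (by simp)
          · have hy' : c = y := by simpa using hy
            subst hy'
            exact (List.isChain_cons_cons.1 w1).1
      · change ((p :: l) ++ t).getLast? = _
        rw [List.getLast?_append, h2]
        rcases t with _ | ⟨c, t⟩
        · simpa using w3
        · rw [List.getLast?_cons_cons] at w3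
          rw [w3]
          rfl
      · intro q hq
        have hq' : q ∈ (p :: l) ++ t := hq
        rcases List.mem_append.1 hq' with hq' | hq'
        · exact ⟨_, h3 q hq', hhs⟩
        · exact w4 q (List.mem_cons_of_mem _ hq')

private theorem cor_trans (g : Wm m) (a : (plane m).V) :
    cor (trans g a) = (fun w => g * w) '' cor a := by
  rcases a with w | s
  · exact (Set.image_singleton (f := fun w => g * w) (a := w)).symm
  · rfl

theorem near_trk (g : Wm m) (p : (Fine m k).V) :
    near (trk k g p) = (fun w => g * w) '' near p := by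
  ext v
  constructor
  · rintro ⟨a, ha, hv⟩
    rw [trk, Srf.mp_car] at ha
    obtain ⟨b, hb, rfl⟩ := ha
    rw [cor_trans] at hv
    obtain ⟨w, hw, rfl⟩ := hv
    exact ⟨w, ⟨b, hb, hw⟩, rfl⟩
  · rintro ⟨w, ⟨b, hb, hw⟩, rfl⟩
    refine ⟨trans g b, ?_, ?_⟩
    · rw [trk, Srf.mp_car]
      exact ⟨b, hb, rfl⟩
    · rw [cor_trans]
      exact ⟨w, hw, rfl⟩

theorem trk_trk (g g' : Wm m) (p : (Fine m k).V) : trk k g (trk k g' p) = trk k (g * g') p := by
  have h : (trans g ∘ trans g' : (plane m).V → (plane m).V) = trans (g * g') := by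
    funext a
    rcases a with w | s
    · exact congrArg Sum.inl (mul_assoc g g' w).symm
    · refine congrArg Sum.inr ?_
      change (fun w => g * w) '' ((fun w => g' * w) '' s) = (fun w => g * g' * w) '' s
      rw [Set.image_image]
      simp only [mul_assoc]
  change Srf.mp (plane m) (plane m) (trans g) k (Srf.mp (plane m) (plane m) (trans g') k p) =
    Srf.mp (plane m) (plane m) (trans (g * g')) k p
  rw [Srf.mp_comp, h]

theorem trk_one (p : (Fine m k).V) : trk k (1 : Wm m) p = p := by
  have h : (trans (1 : Wm m) : (plane m).V → (plane m).V) = id := by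
    funext a
    rcases a with w | s
    · exact congrArg Sum.inl (one_mul w)
    · refine congrArg Sum.inr ?_
      change (fun w => (1 : Wm m) * w) '' s = s
      simp only [one_mul, Set.image_id']
  change Srf.mp (plane m) (plane m) (trans (1 : Wm m)) k p = p
  rw [h, Srf.mp_id]

theorem trk_io (g w : Wm m) :
    trk k g ((plane m).io k (Sum.inl w)) = (plane m).io k (Sum.inl (g * w)) :=
  Srf.mp_io (S := plane m) (S' := plane m) (trans g) k (Sum.inl w)

theorem trk_T {g : Wm m} (hg : Even (UWW.len g)) {p q r : (Fine m k).V}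
    (h : (Fine m k).T p q r) : (Fine m k).T (trk k g p) (trk k g q) (trk k g r) :=
  Srf.mp_T (trans g) (fun _ _ _ h' => trans_T hg h') k p q r h

theorem trk_adj {g : Wm m} (hg : Even (UWW.len g)) {p q : (Fine m k).V}
    (h : (Fine m k).Adj p q) : (Fine m k).Adj (trk k g p) (trk k g q) := by
  obtain ⟨r, hr⟩ := h
  exact ⟨trk k g r, trk_T hg hr⟩

theorem trk_used {g : Wm m} (hg : Even (UWW.len g)) {p : (Fine m k).V} (h : Used p) :
    Used (trk k g p) := by
  obtain ⟨q, hq⟩ := h
  exact ⟨trk k g q, trk_adj hg hq⟩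

end URW
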