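import Pool.Agent.URW.B.Cls

/-!
# URW B/Tch: touched holes, base holes

PROOFS.
* `near_hole`: `h ∈ HW`, `b ∉ HW` in one square: `sq_path` gives a word `l` with `|l| ≤ 2` from `b`
  to `h` inside the square; take a shortest one (or cut it at the first visit of `h`): its proper
  prefixes lead to corners of the square different from `h`, which are not holes (`hole_sq`).
* `tch_chain`: let `q, q'` be as in `Tch p h`. `near q` and `near q'` are in one square
  (`near_adj`); take `b ∈ near q` (`near_nonempty`), `b ∉ HW`. `cls_con` gives a chain of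
  `≤ k1` segments from `a` to `b` in the complement of `HW`, of length `≤ k1 L` (`chn_len`). Append
  the (at most two) single letters of `near_hole` as segments (`seg_single`). Here `1 ≤ L`
  (from `hit`).
* `tch_con`: from `tch_chain`: all vertices of the chain are not in `HW \ {h}`.
* `tch_far`: the chain of `tch_chain` has length `≤ (k1 + 2) L`, so it does not visit `v`.
* `hch_exists`: `a ∈ near p` arbitrary is not good enough (the chain from `h₀` to `h` would pass
  `a`, with `2 (k1 + 2)` segments); instead: let `q₀, q₀'` be as in `Tch p h₀` and `q, q'` as in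
  `Tch p h`; `b₀ ∈ near q₀`, `b ∈ near q`; `Cls q₀ q`, so `Con nW cW HW k1 b₀ b`. Reverse the short
  words from `b₀` to `h₀`, append everything: at most `2 + k1 + 2 = K2` segments; all vertices
  except the two ends are not holes.
* `tch_inj`: two holes `h, h'` touched by the class of `p` with `ρ h = ρ h'`: `tch_chain` twice gives
  a word of length `≤ 2 (k1 + 2) L ≤ n` from `h` to `h'`; `eq_of_rho`.
* `tch_cls`, `base_cls`: `cls_trans`, `cls_symm`.
* `base_exists`: `Nat.find` for the values `en (ρ h)` of the touched holes. `base_unique`: equal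
  values of `en ∘ ρ`, so equal `ρ` (`en` is injective), `tch_inj`.
* `tch_trk`, `base_trk`, `legit_trk`: translate; for `base_trk` note that every hole touched by
  `trk g p` is the translate of one touched by `p` (apply `tch_trk` to `g⁻¹`).
-/

set_option autoImplicit false

namespace URW

variable {m : ℕ}

/-- Single letters as segments. -/
private def sgl (l : List (Lab m)) : List (List (Lab m)) := l.map fun i => [i]

private theorem sgl_flatten (l : List (Lab m)) : (sgl l).flatten = l := by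
  induction l with
  | nil => rfl
  | cons i l ih =>
    change [i] ++ (sgl l).flatten = i :: l
    rw [ih]
    rfl

private theorem sgl_length (l : List (Lab m)) : (sgl l).length = l.length := List.length_map _

private theorem chn_sgl {U : Type} {nb : U → Lab m → U} {c : U → Rot m} (x : U)
    (l : List (Lab m)) : Chn nb c x (sgl l) := by
  induction l generalizing x with
  | nil => trivial
  | cons i l ih => exact ⟨seg_single x i, ih _⟩

namespace Sys

variable {V : Type} [Group V] (X : Sys m V)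

include X in
private theorem hmm : 100 ≤ m := by
  have := X.hm
  omega

theorem L_pos : 1 ≤ X.L := by
  obtain ⟨j, hj, -⟩ := X.hit (1, 0)
  omega

theorem near_hole {h b w : Wm m} {i : Lab m} (hh : h ∈ X.HW) (hb : b ∉ X.HW)
    (h1 : h ∈ sqv nW w i) (h2 : b ∈ sqv nW w i) :
    ∃ l : List (Lab m), l.length ≤ 2 ∧ l ≠ [] ∧ walk nW b l = h ∧
      ∀ p, p <+: l → p ≠ l → walk nW b p ∉ X.HW := by
  classical
  have hex : ∃ t, ∃ l : List (Lab m), l.length = t ∧ l.length ≤ 2 ∧ walk nW b l = h ∧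
      ∀ p, p <+: l → walk nW b p ∈ sqv nW w i := by
    obtain ⟨l, hl1, hl2, hl3⟩ := sq_path h2 h1
    exact ⟨l.length, l, rfl, hl1, hl2, hl3⟩
  obtain ⟨l, hl0, hl1, hl2, hl3⟩ := Nat.find_spec hex
  refine ⟨l, hl1, ?_, hl2, ?_⟩
  · rintro rfl
    rw [walk_nil] at hl2
    rw [hl2] at hb
    exact hb hh
  · intro p hp hne hpH
    have h3 : walk nW b p = h := X.hole_sq hpH hh (hl3 p hp) h1
    have h4 : p.length < l.length := by
      refine lt_of_le_of_ne hp.length_le fun h5 => hne (hp.eq_of_length h5)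
    refine Nat.find_min hex (m := p.length) (by omega) ⟨p, rfl, by omega, h3, ?_⟩
    exact fun p' hp' => hl3 p' (hp'.trans hp)

theorem tch_chain {p : (Fine m X.k).V} {h a : Wm m} (ht : X.Tch p h) (ha : a ∈ near p) :
    ∃ ds : List (List (Lab m)), ds.length ≤ X.k1 + 2 ∧ Chn nW X.cW a ds ∧
      walk nW a ds.flatten = h ∧ ds.flatten.length ≤ (X.k1 + 2) * X.L ∧
      ∀ q, q <+: ds.flatten → q ≠ ds.flatten → walk nW a q ∉ X.HW := by
  obtain ⟨hh, q, q', hc, hadj, hn⟩ := ht
  obtain ⟨w, i, hsq⟩ := near_adj X.hmm hadj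
  have hq := (X.cls_ok hc).2.1
  obtain ⟨b, hb⟩ := near_nonempty X.hmm hq.1
  obtain ⟨ds, d1, d2, d3, d4⟩ := X.cls_con hc ha hb
  obtain ⟨l, l1, -, l3, l4⟩ := X.near_hole hh (hq.2 b hb) (hsq (Or.inr hn)) (hsq (Or.inl hb))
  have hfl : (ds ++ sgl l).flatten = ds.flatten ++ l := by rw [List.flatten_append, sgl_flatten]
  refine ⟨ds ++ sgl l, ?_, ?_, ?_, ?_, ?_⟩
  · rw [List.length_append, sgl_length]
    omega
  · rw [chn_append, d3]
    exact ⟨d2, chn_sgl b l⟩
  · rw [hfl, walk_append, d3, l3]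
  · rw [hfl, List.length_append]
    have h1 := (X.chn_len d2 d4).trans (Nat.mul_le_mul_right _ d1)
    have h2 := X.L_pos
    nlinarith
  · intro p hp hne
    rw [hfl] at hp hne
    obtain ⟨t, ht⟩ := hp
    rcases List.append_eq_append_iff.1 ht with ⟨u, hu, -⟩ | ⟨u, hu, hu'⟩
    · exact d4 p ⟨u, hu.symm⟩
    · rw [hu, walk_append, d3]
      refine l4 u ⟨t, hu'.symm⟩ fun h5 => hne ?_
      rw [hu, h5]

theorem tch_con {p : (Fine m X.k).V} {h a : Wm m} (ht : X.Tch p h) (ha : a ∈ near p) :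
    Con nW X.cW (X.HW \ {h}) (X.k1 + 2) a h := by
  obtain ⟨ds, h1, h2, h3, -, h5⟩ := X.tch_chain ht ha
  refine ⟨ds, h1, h2, h3, fun q hq hmem => ?_⟩
  by_cases h6 : q = ds.flatten
  · rw [h6, h3] at hmem
    exact hmem.2 rfl
  · exact h5 q hq h6 hmem.1

theorem tch_far {p : (Fine m X.k).V} {h a v : Wm m} (ht : X.Tch p h) (ha : a ∈ near p)
    (hv : (X.k1 + 2) * X.L < UWW.len (v⁻¹ * a)) : Con nW X.cW {v} (X.k1 + 2) a h := by
  obtain ⟨ds, h1, h2, h3, h4, -⟩ := X.tch_chain ht ha
  refine ⟨ds, h1, h2, h3, fun q hq hmem => ?_⟩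
  have h5 : a * UWW.pr (cm m) q = v := by
    rw [← walk_nW]
    exact hmem
  have h6 : v⁻¹ * a = (UWW.pr (cm m) q)⁻¹ := by
    rw [← h5, mul_inv_rev, mul_assoc, inv_mul_cancel, mul_one]
  rw [h6, UWW.len_inv] at hv
  have h7 := UWW.len_pr_le (c := cm m) q
  have h8 := hq.length_le
  omega

theorem tch_cls {p q : (Fine m X.k).V} {h : Wm m} (ht : X.Tch p h) (hc : X.Cls q p) :
    X.Tch q h := by
  obtain ⟨hh, r, r', hc', hadj, hn⟩ := ht
  exact ⟨hh, r, r', X.cls_trans hc hc', hadj, hn⟩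

theorem tch_inj {p : (Fine m X.k).V} {h h' : Wm m} (ht : X.Tch p h) (ht' : X.Tch p h')
    (he : X.ρ h = X.ρ h') : h = h' := by
  obtain ⟨-, q, -, hc, -⟩ := id ht
  have hp := (X.cls_ok hc).1
  obtain ⟨a, ha⟩ := near_nonempty X.hmm hp.1
  obtain ⟨ds, -, -, h3, h4, -⟩ := X.tch_chain ht ha
  obtain ⟨ds', -, -, h3', h4', -⟩ := X.tch_chain ht' ha
  have h5 : walk nW h (ds.flatten.reverse ++ ds'.flatten) = h' := by
    rw [walk_append, ← h3, walk_reverse invol_nW, h3']
  refine X.eq_of_rho he h5 ?_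
  rw [List.length_append, List.length_reverse]
  have h6 := X.big
  have h7 : (X.k1 + 2) * X.L + (X.k1 + 2) * X.L ≤ 1000 * (X.K + 10) * (X.L + 1) := by
    unfold k1
    nlinarith
  omega

theorem hch_exists {p : (Fine m X.k).V} {h h' : Wm m} (ht : X.Tch p h) (ht' : X.Tch p h') :
    ∃ ds, X.Hch h h' ds := by
  obtain ⟨hh, q, q₁, hc, hadj, hn⟩ := ht
  obtain ⟨hh', q', q₁', hc', hadj', hn'⟩ := ht'
  obtain ⟨w, i, hsq⟩ := near_adj X.hmm hadj
  obtain ⟨w', i', hsq'⟩ := near_adj X.hmm hadj'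
  have hq := (X.cls_ok hc).2.1
  have hq' := (X.cls_ok hc').2.1
  obtain ⟨b, hb⟩ := near_nonempty X.hmm hq.1
  obtain ⟨b', hb'⟩ := near_nonempty X.hmm hq'.1
  obtain ⟨ds, d1, d2, d3, d4⟩ := X.cls_con (X.cls_trans (X.cls_symm hc) hc') hb hb'
  obtain ⟨l, l1, -, l3, l4⟩ := X.near_hole hh (hq.2 b hb) (hsq (Or.inr hn)) (hsq (Or.inl hb))
  obtain ⟨l', l1', -, l3', l4'⟩ :=
    X.near_hole hh' (hq'.2 b' hb') (hsq' (Or.inr hn')) (hsq' (Or.inl hb'))
  have hfl : (sgl l.reverse ++ (ds ++ sgl l')).flatten = l.reverse ++ (ds.flatten ++ l') := by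
    rw [List.flatten_append, List.flatten_append, sgl_flatten, sgl_flatten]
  have hback : walk nW h l.reverse = b := by
    rw [← l3, walk_reverse invol_nW]
  refine ⟨sgl l.reverse ++ (ds ++ sgl l'), ?_, ?_, ?_, ?_⟩
  · rw [List.length_append, List.length_append, sgl_length, sgl_length, List.length_reverse]
    unfold k1 at d1
    unfold K2
    omega
  · rw [chn_append, chn_append, sgl_flatten, hback, d3]
    exact ⟨chn_sgl h _, d2, chn_sgl b' l'⟩
  · rw [hfl, walk_append, walk_append, hback, d3, l3']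
  · intro p hp hne0 hne
    rw [hfl] at hp hne
    obtain ⟨t, ht⟩ := hp
    rcases List.append_eq_append_iff.1 ht with ⟨u, hu, -⟩ | ⟨u, hu, hu'⟩
    · have e1 : l = u.reverse ++ p.reverse := by
        rw [← List.reverse_append, ← hu, List.reverse_reverse]
      have e2 : walk nW h p = walk nW b u.reverse := by
        have e3 := walk_reverse invol_nW (walk nW b u.reverse) p.reverse
        rw [List.reverse_reverse, ← walk_append _ b, ← e1, l3] at e3
        exact e3
      rw [e2]
      refine l4 _ ⟨p.reverse, e1.symm⟩ fun h5 => hne0 ?_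
      rw [← h5] at e1
      have e4 : u.reverse.length = u.reverse.length + p.reverse.length := by
        conv_lhs => rw [e1]
        rw [List.length_append]
      rw [List.length_reverse (as := p)] at e4
      exact List.length_eq_zero_iff.1 (by omega)
    · rw [hu, walk_append, hback]
      rcases List.append_eq_append_iff.1 hu'.symm with ⟨u', hu1, -⟩ | ⟨u', hu1, hu2⟩
      · exact d4 u ⟨u', hu1.symm⟩
      · rw [hu1, walk_append, d3]
        refine l4' u' ⟨t, hu2.symm⟩ fun h5 => hne ?_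
        rw [hu, hu1, h5]

theorem tch_trk {g : Wm m} (hg : X.ρ g = 1) {p : (Fine m X.k).V} {h : Wm m} (ht : X.Tch p h) :
    X.Tch (trk X.k g p) (g * h) := by
  obtain ⟨hh, q, q', hc, hadj, hn⟩ := ht
  refine ⟨?_, trk X.k g q, trk X.k g q', X.cls_trk hg hc, trk_adj (X.even g hg) hadj, ?_⟩
  · show X.ρ (g * h) ∈ X.H
    rw [map_mul, hg, one_mul]
    exact hh
  · rw [near_trk]
    exact ⟨h, hn, rfl⟩

variable [Finite V]

theorem base_exists {p : (Fine m X.k).V} {h : Wm m} (ht : X.Tch p h) : ∃ h₀, X.IsBase p h₀ := by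
  classical
  have hex : ∃ t, ∃ h', X.Tch p h' ∧ en (X.ρ h') = t := ⟨_, h, ht, rfl⟩
  obtain ⟨h₀, h1, h2⟩ := Nat.find_spec hex
  refine ⟨h₀, h1, fun h' hh' => ?_⟩
  rw [h2]
  exact Nat.find_min' hex ⟨h', hh', rfl⟩

theorem base_unique {p : (Fine m X.k).V} {h h' : Wm m} (ht : X.IsBase p h)
    (ht' : X.IsBase p h') : h = h' := by
  have h1 : en (X.ρ h) = en (X.ρ h') := le_antisymm (ht.2 h' ht'.1) (ht'.2 h ht.1)
  have h2 : X.ρ h = X.ρ h' := (Finite.equivFin V).injective (Fin.val_injective h1)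
  exact X.tch_inj ht.1 ht'.1 h2

theorem base_cls {p q : (Fine m X.k).V} {h : Wm m} (ht : X.IsBase p h) (hc : X.Cls q p) :
    X.IsBase q h := by
  exact ⟨X.tch_cls ht.1 hc, fun h' hh' => ht.2 h' (X.tch_cls hh' (X.cls_symm hc))⟩

theorem base_trk {g : Wm m} (hg : X.ρ g = 1) {p : (Fine m X.k).V} {h : Wm m}
    (ht : X.IsBase p h) : X.IsBase (trk X.k g p) (g * h) := by
  refine ⟨X.tch_trk hg ht.1, fun h' hh' => ?_⟩
  have hg' : X.ρ g⁻¹ = 1 := by rw [map_inv, hg, inv_one]
  have h1 := X.tch_trk hg' hh'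
  rw [trk_trk, inv_mul_cancel, trk_one] at h1
  have h2 := ht.2 _ h1
  rw [map_mul, hg', one_mul] at h2
  rw [map_mul, hg, one_mul]
  exact h2

theorem legit_trk {g h₀ h : Wm m} (hg : X.ρ g = 1) (hl : X.Legit h₀ h) :
    X.Legit (g * h₀) (g * h) := by
  obtain ⟨h1, p, h2, h3⟩ := hl
  exact ⟨fun h4 => h1 (mul_left_cancel h4), trk X.k g p, X.base_trk hg h2, X.tch_trk hg h3⟩

end Sys

end URW
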