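import Pool.Agent.URW.B.Defs

/-!
# URW B/Walk: walks, runs, chains of segments (elementary facts)

PROOFS. All by induction on the word.
* `walk_append`: `List.foldl_append`.
* `runFrom_append`: induction on `d`; the case `d = [i]`, `d' = j :: l` uses `RunFrom` of
  `i :: j :: l`. `runFrom_of_append_cons`: converse gluing when the words overlap in one letter.
* `chn_append`: induction on `ds`, `List.flatten_append`, `walk_append`.
* `runFrom_nice`: consecutive labels `i`, `i + c` differ by `c` with `cd c ≥ m ≥ 3`
  (`cd (i - (i + c)) = cd (-c) = cd c`).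
* `walk_reverse`: induction; `Invol nb`.
* `runFrom_reverse`: the word `i :: j :: l` from `x`: its reverse from the end `y`; induction: by
  the induction hypothesis `RunFrom (rneg c) (walk (nb x i) (j :: l)) (l.reverse ++ [j])` and the
  new last letter `i` satisfies `i = j - c (nb x i)`, where
  `nb x i = walk y (l.reverse ++ [j])` (`walk_reverse`). It is convenient to prove first the lemma
  `RunFrom nb c x (d ++ [j]) → i = j + c (walk nb x (d ++ [j])) → RunFrom nb c x (d ++ [j, i])`.
* `rneg_rneg`: `neg_neg`.
* `runFrom_iterate`: induction on `j`: `nxt (walk x (take j), d[j]) = (walk x (take (j+1)), d[j+1])`.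
* `seg_map`, `chn_map`: a map `f : U → U'` with `f (nb x i) = nb' (f x) i`, `c = c' ∘ f` transports
  runs in both directions.
* `flatten_prefix`: a prefix of `ds.flatten` is `A.flatten ++ u` with `ds = A ++ (u ++ w) :: B`, or
  everything (if `ds` is nonempty one can always achieve the first form).
-/

set_option autoImplicit false

namespace URW

variable {m : ℕ} {U U' : Type} {nb : U → Lab m → U} {c : U → Rot m}

theorem walk_nil (x : U) : walk nb x [] = x := by
  rfl

theorem walk_cons (x : U) (i : Lab m) (l : List (Lab m)) :
    walk nb x (i :: l) = walk nb (nb x i) l := by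
  rfl

theorem rneg_rneg (r : Rot m) : rneg (rneg r) = r := by
  exact Subtype.ext (neg_neg _)

theorem runFrom_append {x : U} {d d' : List (Lab m)} (h : RunFrom nb c x (d ++ d')) :
    RunFrom nb c x d ∧ RunFrom nb c (walk nb x d) d' := by
  induction d generalizing x with
  | nil => exact ⟨trivial, h⟩
  | cons i t ih =>
    cases t with
    | nil =>
      cases d' with
      | nil => exact ⟨trivial, trivial⟩
      | cons j l => exact ⟨trivial, h.2⟩
    | cons j t' =>
      obtain ⟨h1, h2⟩ := h
      obtain ⟨h3, h4⟩ := ih h2
      exact ⟨⟨h1, h3⟩, h4⟩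

theorem seg_append {x : U} {d d' : List (Lab m)} (h : Seg nb c x (d ++ d')) :
    Seg nb c x d ∧ Seg nb c (walk nb x d) d' := by
  rcases h with h | h
  · exact ⟨Or.inl (runFrom_append h).1, Or.inl (runFrom_append h).2⟩
  · exact ⟨Or.inr (runFrom_append h).1, Or.inr (runFrom_append h).2⟩

theorem seg_nil (x : U) : Seg nb c x [] := by
  exact Or.inl trivial

theorem seg_single (x : U) (i : Lab m) : Seg nb c x [i] := by
  exact Or.inl trivial

theorem chn_append {x : U} {ds ds' : List (List (Lab m))} :
    Chn nb c x (ds ++ ds') ↔ Chn nb c x ds ∧ Chn nb c (walk nb x ds.flatten) ds' := by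
  induction ds generalizing x with
  | nil => exact ⟨fun h => ⟨trivial, h⟩, fun h => h.2⟩
  | cons d ds ih =>
    rw [List.flatten_cons, walk_append]
    constructor
    · rintro ⟨h1, h2⟩
      exact ⟨⟨h1, (ih.1 h2).1⟩, (ih.1 h2).2⟩
    · rintro ⟨⟨h1, h2⟩, h3⟩
      exact ⟨h1, ih.2 ⟨h2, h3⟩⟩

theorem runFrom_nice (hm : 3 ≤ m) {x : U} {d : List (Lab m)} (h : RunFrom nb c x d) :
    NiceW d := by
  induction d generalizing x with
  | nil => exact List.isChain_nil
  | cons i t ih =>
    cases t with
    | nil => exact List.isChain_singleton i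
    | cons j t' =>
      obtain ⟨h1, h2⟩ := h
      refine List.isChain_cons_cons.2 ⟨?_, ih h2⟩
      have h3 : i - j = -(c (nb x i)).1 := by rw [h1]; ring
      show 3 ≤ cd (i - j)
      rw [h3, cd_neg]
      exact hm.trans (c (nb x i)).2

theorem seg_nice (hm : 3 ≤ m) {x : U} {d : List (Lab m)} (h : Seg nb c x d) : NiceW d := by
  rcases h with h | h
  · exact runFrom_nice hm h
  · exact runFrom_nice hm h

theorem niceW_reverse {d : List (Lab m)} (h : NiceW d) : NiceW d.reverse := by
  have h2 : (fun i j : Lab m => 3 ≤ cd (j - i)) = fun i j : Lab m => 3 ≤ cd (i - j) := by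
    funext i j
    rw [cd_sub_comm]
  have h3 : d.reverse.IsChain (fun i j : Lab m => 3 ≤ cd (j - i)) :=
    List.isChain_reverse.2 h
  rw [h2] at h3
  exact h3

private theorem runFrom_snoc {x : U} {d : List (Lab m)} {i j : Lab m}
    (h : RunFrom nb c x (d ++ [j])) (hi : i = j + (c (walk nb x (d ++ [j]))).1) :
    RunFrom nb c x (d ++ [j, i]) := by
  induction d generalizing x with
  | nil => exact ⟨hi, trivial⟩
  | cons a d ih =>
    cases d with
    | nil => exact ⟨h.1, hi, trivial⟩
    | cons e d => exact ⟨h.1, ih h.2 hi⟩

theorem runFrom_reverse (hI : Invol nb) {x : U} {d : List (Lab m)} (h : RunFrom nb c x d) :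
    RunFrom nb (fun v => rneg (c v)) (walk nb x d) d.reverse := by
  induction d generalizing x with
  | nil => trivial
  | cons i t ih =>
    cases t with
    | nil => trivial
    | cons j l =>
      obtain ⟨h1, h2⟩ := h
      have h3 := ih h2
      have h4 : (i :: j :: l).reverse = l.reverse ++ [j, i] := by simp
      have h5 : (j :: l).reverse = l.reverse ++ [j] := by simp
      have h6 := walk_reverse hI (nb x i) (j :: l)
      rw [h5] at h3 h6
      rw [h4]
      refine runFrom_snoc h3 ?_
      show i = j + -(c _).1
      rw [walk_cons, h6, h1]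
      ring

theorem seg_reverse (hI : Invol nb) {x : U} {d : List (Lab m)} (h : Seg nb c x d) :
    Seg nb c (walk nb x d) d.reverse := by
  rcases h with h | h
  · exact Or.inr (runFrom_reverse hI h)
  · have h2 := runFrom_reverse hI h
    simp only [rneg_rneg] at h2
    exact Or.inl h2

theorem chn_reverse (hI : Invol nb) {x : U} {ds : List (List (Lab m))} (h : Chn nb c x ds) :
    Chn nb c (walk nb x ds.flatten) (ds.map List.reverse).reverse := by
  induction ds generalizing x with
  | nil => trivial
  | cons d ds ih =>
    obtain ⟨h1, h2⟩ := h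
    rw [List.map_cons, List.reverse_cons, List.flatten_cons, walk_append]
    refine chn_append.2 ⟨ih h2, ?_⟩
    have h3 : walk nb (walk nb (walk nb x d) ds.flatten)
        (List.map List.reverse ds).reverse.flatten = walk nb x d := by
      rw [← List.reverse_flatten, walk_reverse hI]
    rw [h3]
    exact ⟨seg_reverse hI h1, trivial⟩

theorem flatten_reverse' (ds : List (List (Lab m))) :
    (ds.map List.reverse).reverse.flatten = ds.flatten.reverse := by
  exact List.reverse_flatten.symm

/-- Reading the darts of a run. -/
theorem runFrom_iterate {x : U} {i : Lab m} {l : List (Lab m)} (h : RunFrom nb c x (i :: l))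
    (j : ℕ) (hj : j < (i :: l).length) :
    (nxt nb c)^[j] (x, i) = (walk nb x ((i :: l).take j), (i :: l)[j]) := by
  induction l generalizing x i j with
  | nil =>
    have h0 : j = 0 := by simpa using hj
    subst h0
    rfl
  | cons a l ih =>
    cases j with
    | zero => rfl
    | succ j =>
      obtain ⟨h1, h2⟩ := h
      have h3 : nxt nb c (x, i) = (nb x i, a) := by simp only [nxt, h1]
      rw [Function.iterate_succ_apply, h3, ih h2 j (by simpa using hj)]
      rfl

theorem runFrom_iterate_fst {x : U} {i : Lab m} {l : List (Lab m)}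
    (h : RunFrom nb c x (i :: l)) (j : ℕ) (hj : j ≤ (i :: l).length) :
    ((nxt nb c)^[j] (x, i)).1 = walk nb x ((i :: l).take j) := by
  cases j with
  | zero => rfl
  | succ j =>
    rw [Function.iterate_succ_apply', runFrom_iterate h j hj,
      ← List.take_append_getElem hj, walk_append]
    rfl

/-- The labels of a run form a run. -/
theorem runFrom_of_nxt (d : U × Lab m) (t : ℕ) :
    RunFrom nb c d.1 ((List.range t).map fun j => ((nxt nb c)^[j] d).2) ∧
      ∀ j ≤ t, walk nb d.1 (((List.range t).map fun j => ((nxt nb c)^[j] d).2).take j) =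
        ((nxt nb c)^[j] d).1 := by
  induction t generalizing d with
  | zero =>
    refine ⟨trivial, fun j hj => ?_⟩
    have h0 : j = 0 := by omega
    subst h0
    rfl
  | succ t ih =>
    have h1 : (List.range (t + 1)).map (fun j => ((nxt nb c)^[j] d).2) =
        d.2 :: (List.range t).map fun j => ((nxt nb c)^[j] (nxt nb c d)).2 := by
      rw [List.range_succ_eq_map, List.map_cons, List.map_map]
      rfl
    rw [h1]
    obtain ⟨h2, h3⟩ := ih (nxt nb c d)
    constructor
    · cases t with
      | zero => trivial
      | succ t =>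
        have h4 : (List.range (t + 1)).map (fun j => ((nxt nb c)^[j] (nxt nb c d)).2) =
            (nxt nb c d).2 ::
              (List.range t).map fun j => ((nxt nb c)^[j] (nxt nb c (nxt nb c d))).2 := by
          rw [List.range_succ_eq_map, List.map_cons, List.map_map]
          rfl
        rw [h4] at h2 ⊢
        exact ⟨rfl, h2⟩
    · intro j hj
      cases j with
      | zero => rfl
      | succ j =>
        rw [List.take_succ_cons, walk_cons, Function.iterate_succ_apply]
        exact h3 j (by omega)

theorem walk_map {nb' : U' → Lab m → U'} (f : U → U') (hf : ∀ x i, f (nb x i) = nb' (f x) i)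
    (x : U) (l : List (Lab m)) : f (walk nb x l) = walk nb' (f x) l := by
  induction l generalizing x with
  | nil => rfl
  | cons i l ih => rw [walk_cons, walk_cons, ih, hf]

private theorem run_map {nb' : U' → Lab m → U'} {c : U → Rot m} {c' : U' → Rot m}
    (f : U → U') (hf : ∀ x i, f (nb x i) = nb' (f x) i) (hc : ∀ x, c x = c' (f x)) (x : U)
    (d : List (Lab m)) : RunFrom nb c x d ↔ RunFrom nb' c' (f x) d := by
  induction d generalizing x with
  | nil => exact Iff.rfl
  | cons i t ih =>
    cases t with
    | nil => exact Iff.rfl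
    | cons j l =>
      have h1 := ih (nb x i)
      rw [hf] at h1
      have h2 : c (nb x i) = c' (nb' (f x) i) := by rw [hc, hf]
      refine and_congr ?_ h1
      rw [h2]

theorem seg_map {nb' : U' → Lab m → U'} {c' : U' → Rot m} (f : U → U')
    (hf : ∀ x i, f (nb x i) = nb' (f x) i) (hc : ∀ x, c x = c' (f x)) (x : U)
    (d : List (Lab m)) : Seg nb c x d ↔ Seg nb' c' (f x) d := by
  have h1 := run_map f hf hc x d
  have h2 := run_map (c := fun v => rneg (c v)) (c' := fun v => rneg (c' v)) f hf
    (fun x => by rw [hc]) x d
  exact or_congr h1 h2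

theorem chn_map {nb' : U' → Lab m → U'} {c' : U' → Rot m} (f : U → U')
    (hf : ∀ x i, f (nb x i) = nb' (f x) i) (hc : ∀ x, c x = c' (f x)) (x : U)
    (ds : List (List (Lab m))) : Chn nb c x ds ↔ Chn nb' c' (f x) ds := by
  induction ds generalizing x with
  | nil => exact Iff.rfl
  | cons d ds ih =>
    have h1 := ih (walk nb x d)
    rw [walk_map f hf] at h1
    exact and_congr (seg_map f hf hc x d) h1

theorem flatten_prefix {α : Type} (ds : List (List α)) (p : List α) (h : p <+: ds.flatten) :
    p = [] ∨ ∃ (A B : List (List α)) (u w : List α), ds = A ++ (u ++ w) :: B ∧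
      p = A.flatten ++ u ∧ u ≠ [] := by
  induction ds generalizing p with
  | nil =>
    left
    exact List.prefix_nil.1 h
  | cons d ds ih =>
    rw [List.flatten_cons] at h
    by_cases hp : p = []
    · exact Or.inl hp
    right
    rcases List.prefix_or_prefix_of_prefix h (List.prefix_append d ds.flatten) with h1 | h1
    · obtain ⟨w, rfl⟩ := h1
      exact ⟨[], ds, p, w, rfl, rfl, hp⟩
    · obtain ⟨p', rfl⟩ := h1
      rcases ih p' ((List.prefix_append_right_inj d).1 h) with h2 | ⟨A, B, u, w, h2, h3, h4⟩
      · subst h2
        rw [List.append_nil] at hp ⊢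
        exact ⟨[], ds, d, [], by simp, rfl, hp⟩
      · refine ⟨d :: A, B, u, w, ?_, ?_, h4⟩
        · rw [h2]; rfl
        · rw [h3, List.flatten_cons, List.append_assoc]

end URW
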